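import Mathlib

/-!
# Polynomials with square values at two integers of a fixed large distance
-/

set_option autoImplicit false

namespace Pool.Agent.Helper32K9.St

open Polynomial Filter Topology

/-- a polynomial of degree `2 D` with square leading coefficient is a square up to degree `< D` -/
theorem sqrt_poly (D : ℕ) (c : ℚ) (hc : c ≠ 0) (P : ℚ[X]) (hP : P.natDegree ≤ 2 * D)
    (hl : P.coeff (2 * D) = c ^ 2) :
    ∃ S : ℚ[X], S.natDegree ≤ D ∧ S.coeff D = c ∧ (P - S ^ 2).degree < (D : ℕ) := by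
  have key : ∀ t ≤ D, ∃ S : ℚ[X], S.natDegree ≤ D ∧ S.coeff D = c ∧
      (P - S ^ 2).degree < ((2 * D - t : ℕ) : WithBot ℕ) := by
    intro t
    induction t with
    | zero =>
      intro _
      refine ⟨C c * X ^ D, ?_, ?_, ?_⟩
      · exact (natDegree_C_mul_X_pow_le c D)
      · simp
      · rw [degree_lt_iff_coeff_zero]
        intro j hj
        have e : (C c * X ^ D : ℚ[X]) ^ 2 = C (c ^ 2) * X ^ (2 * D) := by
          rw [mul_pow, ← pow_mul, mul_comm D 2, C_pow]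
        rw [e, coeff_sub, coeff_C_mul, coeff_X_pow]
        rcases Nat.eq_or_lt_of_le hj with h | h
        · rw [← h]; simp [hl]
        · rw [if_neg (by omega), coeff_eq_zero_of_natDegree_lt (by omega)]; ring
    | succ t ih =>
      intro ht
      obtain ⟨S, h1, h2, h3⟩ := ih (by omega)
      set r := (P - S ^ 2).coeff (2 * D - t - 1) with hr
      set k := D - t - 1 with hk
      refine ⟨S + C (r / (2 * c)) * X ^ k, ?_, ?_, ?_⟩
      · refine (natDegree_add_le _ _).trans (max_le h1 ?_)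
        exact (natDegree_C_mul_X_pow_le _ _).trans (by omega)
      · rw [coeff_add, h2, coeff_C_mul, coeff_X_pow, if_neg (by omega)]; ring
      · rw [degree_lt_iff_coeff_zero] at h3 ⊢
        intro j hj
        have e : P - (S + C (r / (2 * c)) * X ^ k) ^ 2 =
            (P - S ^ 2) - C (2 * (r / (2 * c))) * (S * X ^ k) -
              C ((r / (2 * c)) ^ 2) * X ^ (2 * k) := by
          rw [C_mul, C_pow]
          have : (C (2 : ℚ) : ℚ[X]) = 2 := rfl
          rw [this]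
          ring
        rw [e, coeff_sub, coeff_sub, coeff_C_mul, coeff_C_mul, coeff_X_pow,
          coeff_mul_X_pow', if_pos (show k ≤ j by omega), if_neg (show ¬ j = 2 * k by omega)]
        rcases Nat.eq_or_lt_of_le hj with h | h
        · have e1 : j - k = D := by omega
          have e2 : j = 2 * D - t - 1 := by omega
          rw [e1, h2, e2, ← hr]
          field_simp
          ring
        · rw [h3 j (by omega), coeff_eq_zero_of_natDegree_lt (p := S) (by omega)]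
          ring
  obtain ⟨S, h1, h2, h3⟩ := key D le_rfl
  refine ⟨S, h1, h2, ?_⟩
  have e : 2 * D - D = D := by omega
  rw [e] at h3
  exact h3

/-- clearing denominators -/
theorem clear_den (S : ℚ[X]) : ∃ b : ℤ, b ≠ 0 ∧ ∃ T : ℤ[X],
    T.map (Int.castRingHom ℚ) = C (b : ℚ) * S := by
  obtain ⟨b, hb, h⟩ := IsLocalization.integerNormalization_spec (nonZeroDivisors ℤ) S
  refine ⟨b, nonZeroDivisors.ne_zero hb,
    IsLocalization.integerNormalization (nonZeroDivisors ℤ) S, ?_⟩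
  have h' := h
  rw [zsmul_eq_mul] at h'
  have e : (algebraMap ℤ ℚ) = Int.castRingHom ℚ := rfl
  rw [← e, h', ← map_intCast (C : ℚ →+* ℚ[X])]

theorem eval_clear {S : ℚ[X]} {b : ℤ} {T : ℤ[X]} (h : T.map (Int.castRingHom ℚ) = C (b : ℚ) * S)
    (x : ℤ) : ((T.eval x : ℤ) : ℚ) = b * S.eval (x : ℚ) := by
  have h1 := congrArg (fun p => p.eval (x : ℚ)) h
  simp only [eval_mul, eval_C] at h1
  rw [← h1, eval_intCast_map]
  rfl

theorem ev_small {P Q : ℚ[X]} (h : P.degree < Q.degree) (ε : ℚ) (hε : 0 < ε) :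
    ∀ᶠ n : ℕ in atTop, Q.eval (n : ℚ) ≠ 0 ∧ |P.eval (n : ℚ) / Q.eval (n : ℚ)| < ε := by
  have hQ : Q ≠ 0 := by
    rintro rfl
    simp at h
  have h1 := (div_tendsto_atTop_zero_of_degree_lt P Q h).comp
    (tendsto_natCast_atTop_atTop (R := ℚ))
  have h2 := h1.abs
  rw [abs_zero] at h2
  have h3 := (tendsto_order.1 h2).2 ε hε
  have h4 := (tendsto_natCast_atTop_atTop (R := ℚ)).eventually (eventually_atTop_not_isRoot Q hQ)
  filter_upwards [h3, h4] with n h5 h6
  exact ⟨fun h => h6 h, h5⟩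

/-- the product of the values at `i` and `i + s` is often a square only if it is so identically -/
theorem prod_sq (g : ℤ[X]) (hg : g ≠ 0) (s : ℕ)
    (h : ∃ᶠ i : ℕ in atTop, (∃ u : ℤ, g.eval (i : ℤ) = u ^ 2) ∧
      ∃ v : ℤ, g.eval ((i + s : ℕ) : ℤ) = v ^ 2) :
    ∃ S : ℚ[X], g.map (Int.castRingHom ℚ) * (g.map (Int.castRingHom ℚ)).comp (X + C (s : ℚ)) =
      S ^ 2 := by
  set G := g.map (Int.castRingHom ℚ) with hG
  have hG0 : G ≠ 0 := by
    rw [hG]
    exact (Polynomial.map_ne_zero_iff (RingHom.injective_int _)).2 hg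
  set D := G.natDegree with hD
  set c := G.leadingCoeff with hcd
  have hc : c ≠ 0 := leadingCoeff_ne_zero.2 hG0
  have hX : (X + C (s : ℚ) : ℚ[X]).natDegree = 1 := natDegree_X_add_C _
  have hXl : (X + C (s : ℚ) : ℚ[X]).leadingCoeff = 1 := leadingCoeff_X_add_C _
  have hcl : (G.comp (X + C (s : ℚ))).leadingCoeff = c := by
    rw [leadingCoeff_comp (by rw [hX]; norm_num), hXl]; simp [hcd]
  have hcn : (G.comp (X + C (s : ℚ))).natDegree = D := by
    rw [natDegree_comp, hX, mul_one]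
  have hG1 : G.comp (X + C (s : ℚ)) ≠ 0 := by
    intro h0
    rw [h0] at hcl
    simp at hcl
    exact hc hcl.symm
  set F := G * G.comp (X + C (s : ℚ)) with hF
  have hFn : F.natDegree = 2 * D := by
    rw [hF, natDegree_mul hG0 hG1, hcn]; ring
  have hFl : F.coeff (2 * D) = c ^ 2 := by
    rw [← hFn]
    change F.leadingCoeff = _
    rw [hF, leadingCoeff_mul, hcl]; ring
  obtain ⟨S, h1, h2, h3⟩ := sqrt_poly D c hc F hFn.le hFl
  refine ⟨S, ?_⟩
  have hSd : S.degree = (D : ℕ) := by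
    have h4 : S ≠ 0 := by
      rintro rfl
      simp at h2
      exact hc h2.symm
    rw [degree_eq_natDegree h4]
    congr 1
    exact le_antisymm h1 (le_natDegree_of_ne_zero (by rw [h2]; exact hc))
  obtain ⟨b, hb, T, hT⟩ := clear_den S
  by_contra hne
  have hR0 : F - S ^ 2 ≠ 0 := sub_ne_zero.2 hne
  have hb0 : (0 : ℚ) < |(b : ℚ)| := abs_pos.2 (by exact_mod_cast hb)
  have e1 := ev_small (P := F - S ^ 2) (Q := S) (by rw [hSd]; exact h3) (1 / |(b : ℚ)|)
    (by positivity)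
  have e2 := (tendsto_natCast_atTop_atTop (R := ℚ)).eventually
    (eventually_atTop_not_isRoot _ hR0)
  obtain ⟨i, ⟨⟨u, hu⟩, ⟨v, hv⟩⟩, ⟨hS0, hlt⟩, hR⟩ := (h.and_eventually (e1.and e2)).exists
  -- the value of `F` at `i`
  have f1 : G.eval (i : ℚ) = (u : ℚ) ^ 2 := by
    have : G.eval (((i : ℕ) : ℤ) : ℚ) = ((g.eval (i : ℤ) : ℤ) : ℚ) := by
      rw [hG, eval_intCast_map]; rfl
    rw [hu] at this
    push_cast at this
    exact this
  have f2 : G.eval ((i : ℚ) + s) = (v : ℚ) ^ 2 := by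
    have : G.eval ((((i + s : ℕ) : ℕ) : ℤ) : ℚ) = ((g.eval ((i + s : ℕ) : ℤ) : ℤ) : ℚ) := by
      rw [hG, eval_intCast_map]; rfl
    rw [hv] at this
    push_cast at this
    exact this
  have f3 : F.eval (i : ℚ) = ((u * v : ℤ) : ℚ) ^ 2 := by
    rw [hF, eval_mul, eval_comp, eval_add, eval_X, eval_C, f1, f2]
    push_cast; ring
  set w : ℚ := |((u * v : ℤ) : ℚ)| with hw
  set σ : ℚ := |S.eval (i : ℚ)| with hσ
  have hσ0 : 0 < σ := abs_pos.2 hS0
  have hw0 : 0 ≤ w := abs_nonneg _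
  have f4 : (F - S ^ 2).eval (i : ℚ) = (w - σ) * (w + σ) := by
    rw [eval_sub, eval_pow, f3, ← sq_abs (((u * v : ℤ) : ℚ)), ← sq_abs (S.eval (i : ℚ))]
    ring
  have f5 : w ≠ σ := by
    intro h0
    apply hR
    rw [IsRoot.def, f4, h0]; ring
  -- integrality
  have f6 : 1 ≤ |(b : ℚ)| * |w - σ| := by
    have g1 : |(b : ℚ)| * (w - σ) = ((|b| * |u * v| - |T.eval (i : ℤ)| : ℤ) : ℚ) := by
      push_cast
      have g2 := eval_clear hT (i : ℤ)
      rw [mul_sub, hw, hσ, ← abs_mul (b : ℚ) (S.eval (i : ℚ))]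
      have g3 : ((T.eval (i : ℤ) : ℤ) : ℚ) = b * S.eval (i : ℚ) := by
        rw [g2]; push_cast; rfl
      rw [← g3]
      push_cast
      rfl
    have g4 : |(b : ℚ)| * |w - σ| = |((|b| * |u * v| - |T.eval (i : ℤ)| : ℤ) : ℚ)| := by
      rw [← g1, abs_mul, abs_abs]
    rw [g4, ← Int.cast_abs]
    have g5 : (|b| * |u * v| - |T.eval (i : ℤ)| : ℤ) ≠ 0 := by
      intro h0
      rw [h0] at g1
      push_cast at g1
      rcases mul_eq_zero.1 g1 with h' | h'
      · exact hb0.ne' h'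
      · exact f5 (sub_eq_zero.1 h')
    exact_mod_cast Int.one_le_abs g5
  have f7 : |(F - S ^ 2).eval (i : ℚ) / S.eval (i : ℚ)| = |w - σ| * (w + σ) / σ := by
    rw [f4, abs_div, abs_mul, abs_of_nonneg (by linarith : 0 ≤ w + σ)]
  rw [f7, div_lt_div_iff₀ hσ0 hb0] at hlt
  have f8 : σ ≤ |w - σ| * (w + σ) * |(b : ℚ)| := by
    have : 1 * σ ≤ (|(b : ℚ)| * |w - σ|) * (w + σ) := by
      apply mul_le_mul f6 (by linarith) hσ0.le (by positivity)
    linarith
  linarith

/-- Either `g` is the square of a polynomial, or for every large `s` the values of `g` at `i` and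
`i + s` are not both squares, for all large `i`. -/
theorem sq_far (g : ℤ[X]) (hg : g ≠ 0) :
    (∃ w : ℚ[X], g.map (Int.castRingHom ℚ) = w ^ 2) ∨ ∃ s₀ : ℕ, ∀ s, s₀ ≤ s →
      ∀ᶠ i : ℕ in atTop, ¬ ((∃ u : ℤ, g.eval (i : ℤ) = u ^ 2) ∧
        ∃ v : ℤ, g.eval ((i + s : ℕ) : ℤ) = v ^ 2) := by
  set G := g.map (Int.castRingHom ℚ) with hG
  have hG0 : G ≠ 0 := by
    rw [hG]
    exact (Polynomial.map_ne_zero_iff (RingHom.injective_int _)).2 hg
  set R := (G.aroots ℂ).toFinset with hR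
  set B : ℝ := ∑ ρ ∈ R, ‖ρ‖ with hB
  have hBnn : ∀ ρ ∈ R, ‖ρ‖ ≤ B := fun ρ hρ =>
    Finset.single_le_sum (f := fun ρ : ℂ => ‖ρ‖) (fun _ _ => norm_nonneg _) hρ
  by_cases hsq : ∃ w : ℚ[X], G = w ^ 2
  · exact Or.inl hsq
  right
  refine ⟨⌈2 * B⌉₊ + 1, fun s hs => ?_⟩
  by_contra hev
  have hfr : ∃ᶠ i : ℕ in atTop, (∃ u : ℤ, g.eval (i : ℤ) = u ^ 2) ∧
      ∃ v : ℤ, g.eval ((i + s : ℕ) : ℤ) = v ^ 2 := by
    rw [Filter.Frequently]
    exact hev
  obtain ⟨S, hS⟩ := prod_sq g hg s hfr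
  have hcop : IsCoprime G (G.comp (X + C (s : ℚ))) := by
    refine (isCoprime_iff_aeval_ne_zero_of_isAlgClosed ℚ ℂ _ _).2 fun a => ?_
    by_contra hcon
    push Not at hcon
    obtain ⟨h1, h2⟩ := hcon
    have m1 : a ∈ R := by
      rw [hR, Multiset.mem_toFinset, mem_aroots]
      exact ⟨hG0, h1⟩
    have m2 : a + s ∈ R := by
      rw [hR, Multiset.mem_toFinset, mem_aroots]
      refine ⟨hG0, ?_⟩
      rw [aeval_comp] at h2
      simpa using h2
    have h3 : (s : ℝ) ≤ 2 * B := by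
      have : (s : ℝ) = ‖(a + s) - a‖ := by simp
      rw [this]
      refine (norm_sub_le _ _).trans ?_
      have := hBnn _ m1
      have := hBnn _ m2
      linarith
    have h4 : 2 * B ≤ (⌈2 * B⌉₊ : ℝ) := Nat.le_ceil _
    have h5 : ((⌈2 * B⌉₊ + 1 : ℕ) : ℝ) ≤ s := by exact_mod_cast hs
    push_cast at h5
    linarith
  obtain ⟨d, hd⟩ := exists_associated_pow_of_mul_eq_pow' hcop hS
  obtain ⟨κ, hκ⟩ := hd
  obtain ⟨k, hk, hkκ⟩ := Polynomial.isUnit_iff.1 κ.isUnit
  have hGd : G = C k * d ^ 2 := by rw [← hκ, ← hkκ]; ring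
  have hd0 : d ≠ 0 := by
    rintro rfl
    apply hG0
    rw [hGd]; ring
  have e2 := (tendsto_natCast_atTop_atTop (R := ℚ)).eventually
    (eventually_atTop_not_isRoot _ hd0)
  obtain ⟨i, ⟨⟨u, hu⟩, -⟩, hdi⟩ := (hfr.and_eventually e2).exists
  have hdi' : d.eval (i : ℚ) ≠ 0 := fun h => hdi h
  have f1 : G.eval (i : ℚ) = (u : ℚ) ^ 2 := by
    have : G.eval (((i : ℕ) : ℤ) : ℚ) = ((g.eval (i : ℤ) : ℤ) : ℚ) := by
      rw [hG, eval_intCast_map]; rfl
    rw [hu] at this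
    push_cast at this
    exact this
  rw [hGd, eval_mul, eval_C, eval_pow] at f1
  apply hsq
  refine ⟨C (u / d.eval (i : ℚ)) * d, ?_⟩
  rw [mul_pow, ← C_pow, hGd]
  congr 2
  rw [div_pow, eq_div_iff (pow_ne_zero 2 hdi')]
  exact f1

end Pool.Agent.Helper32K9.St
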