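import Mathlib
import Pool.Agent.Helper32K9.St.Runge

/-!
# Integer points on a curve which is linear in `y`, close to a diagonal
-/

set_option autoImplicit false

namespace Pool.Agent.Helper32K9.St

open Polynomial Filter Topology

theorem lin_rel (A B : ℤ[X]) (hB : B ≠ 0) : ∃ b : ℤ, 0 < b ∧ ∃ T : ℤ[X],
    ∀ᶠ m : ℕ in atTop, ∀ ν : ℤ, A.eval (m : ℤ) + B.eval (m : ℤ) * ν = 0 →
      b * ν = T.eval (m : ℤ) := by
  set AQ := A.map (Int.castRingHom ℚ) with hA
  set BQ := B.map (Int.castRingHom ℚ) with hBd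
  have hB0 : BQ ≠ 0 := (Polynomial.map_ne_zero_iff (RingHom.injective_int _)).2 hB
  have hdiv : BQ * ((-AQ) / BQ) + (-AQ) % BQ = -AQ := EuclideanDomain.div_add_mod _ _
  have hlt : ((-AQ) % BQ).degree < BQ.degree := EuclideanDomain.mod_lt _ hB0
  set Q := (-AQ) / BQ with hQ
  set R := (-AQ) % BQ with hR
  obtain ⟨b, hb, T, hT⟩ := clear_den Q
  have main : ∀ᶠ m : ℕ in atTop, ∀ ν : ℤ, A.eval (m : ℤ) + B.eval (m : ℤ) * ν = 0 →
      b * ν = T.eval (m : ℤ) := by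
    have hb0 : (0 : ℚ) < |(b : ℚ)| := abs_pos.2 (by exact_mod_cast hb)
    filter_upwards [ev_small hlt (1 / |(b : ℚ)|) (by positivity)] with m hm ν hν
    obtain ⟨h1, h2⟩ := hm
    have eA : AQ.eval (m : ℚ) = ((A.eval (m : ℤ) : ℤ) : ℚ) := by
      have : AQ.eval (((m : ℕ) : ℤ) : ℚ) = ((A.eval (m : ℤ) : ℤ) : ℚ) := by
        rw [hA, eval_intCast_map]; rfl
      exact_mod_cast this
    have eB : BQ.eval (m : ℚ) = ((B.eval (m : ℤ) : ℤ) : ℚ) := by
      have : BQ.eval (((m : ℕ) : ℤ) : ℚ) = ((B.eval (m : ℤ) : ℤ) : ℚ) := by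
        rw [hBd, eval_intCast_map]; rfl
      exact_mod_cast this
    have e1 := congrArg (fun p => p.eval (m : ℚ)) hdiv
    simp only [eval_add, eval_mul, eval_neg] at e1
    have e2 : AQ.eval (m : ℚ) + BQ.eval (m : ℚ) * ν = 0 := by
      rw [eA, eB]; exact_mod_cast hν
    have e3 : BQ.eval (m : ℚ) * (ν - Q.eval (m : ℚ)) = R.eval (m : ℚ) := by linarith
    have e4 : (ν : ℚ) - Q.eval (m : ℚ) = R.eval (m : ℚ) / BQ.eval (m : ℚ) := by
      rw [eq_div_iff h1, mul_comm]; exact e3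
    have e5 := eval_clear hT (m : ℤ)
    have e6 : ((b * ν - T.eval (m : ℤ) : ℤ) : ℚ) = b * (R.eval (m : ℚ) / BQ.eval (m : ℚ)) := by
      rw [← e4]; push_cast
      push_cast at e5
      rw [e5]; ring
    have e7 : |((b * ν - T.eval (m : ℤ) : ℤ) : ℚ)| < 1 := by
      rw [e6, abs_mul]
      calc |(b : ℚ)| * |R.eval (m : ℚ) / BQ.eval (m : ℚ)| < |(b : ℚ)| * (1 / |(b : ℚ)|) :=
            mul_lt_mul_of_pos_left h2 hb0
        _ = 1 := by field_simp
    rw [← Int.cast_abs] at e7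
    have e8 : |b * ν - T.eval (m : ℤ)| < 1 := by exact_mod_cast e7
    have e9 := Int.abs_lt_one_iff.1 e8
    linarith
  rcases lt_or_gt_of_ne hb with h | h
  · refine ⟨-b, by omega, -T, ?_⟩
    filter_upwards [main] with m hm ν hν
    rw [eval_neg, ← hm ν hν]; ring
  · exact ⟨b, h, T, main⟩

theorem comp_neg_eval (T : ℤ[X]) (i : ℕ) :
    ((T.map (Int.castRingHom ℚ)).comp (-X)).eval (i : ℚ) = ((T.eval (-(i : ℤ)) : ℤ) : ℚ) := by
  rw [eval_comp, eval_neg, eval_X]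
  have : (T.map (Int.castRingHom ℚ)).eval (((-(i : ℤ)) : ℤ) : ℚ) =
      ((T.eval (-(i : ℤ)) : ℤ) : ℚ) := by
    rw [eval_intCast_map]; rfl
  push_cast at this
  exact this

theorem lin_final (A B : ℤ[X]) (hB : B ≠ 0) : ∃ N : ℕ, ∀ r₀ : ℕ, ∃ H : ℕ, ∀ m : ℕ, N ≤ m →
    ∀ ν : ℤ, (m : ℤ) < ν → A.eval (m : ℤ) + B.eval (m : ℤ) * ν = 0 → (m : ℤ) + 1 ∣ ν + 1 →
    ∀ i : ℕ, N ≤ i → i ≤ r₀ → ∀ e : ℤ, 1 ≤ e → e ≤ i → ∀ p : ℤ, (H : ℤ) ≤ p →
    p ∣ (m : ℤ) + i → p ∣ ν + e → False := by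
  obtain ⟨b, hb, T, hT⟩ := lin_rel A B hB
  obtain ⟨N₁, hN₁⟩ := eventually_atTop.1 hT
  -- the transfer to `-i`
  have transfer : ∀ r₀ : ℕ, ∃ H : ℕ, ∀ m : ℕ, N₁ ≤ m → ∀ ν : ℤ,
      A.eval (m : ℤ) + B.eval (m : ℤ) * ν = 0 → ∀ i : ℕ, i ≤ r₀ → ∀ e : ℤ, 1 ≤ e → e ≤ i →
      ∀ p : ℤ, (H : ℤ) ≤ p → p ∣ (m : ℤ) + i → p ∣ ν + e → T.eval (-(i : ℤ)) + b * e = 0 := by
    intro r₀
    refine ⟨(∑ i ∈ Finset.range (r₀ + 1), (T.eval (-(i : ℤ))).natAbs) + b.natAbs * r₀ + 1, ?_⟩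
    intro m hm ν hν i hi e he1 he2 p hp hpm hpν
    have h1 : p ∣ T.eval (-(i : ℤ)) + b * e := by
      have h2 : (m : ℤ) - (-(i : ℤ)) ∣ T.eval (m : ℤ) - T.eval (-(i : ℤ)) :=
        Polynomial.sub_dvd_eval_sub _ _ _
      have h3 : p ∣ T.eval (m : ℤ) - T.eval (-(i : ℤ)) := by
        refine dvd_trans ?_ h2
        rw [sub_neg_eq_add]; exact hpm
      have h4 := hN₁ m hm ν hν
      have h5 : T.eval (-(i : ℤ)) + b * e =
          b * (ν + e) - (T.eval (m : ℤ) - T.eval (-(i : ℤ))) := by rw [← h4]; ring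
      rw [h5]
      exact dvd_sub (Dvd.dvd.mul_left hpν b) h3
    refine Int.eq_zero_of_abs_lt_dvd h1 (lt_of_lt_of_le ?_ hp)
    have h6 : |T.eval (-(i : ℤ))| ≤
        ((∑ i ∈ Finset.range (r₀ + 1), (T.eval (-(i : ℤ))).natAbs : ℕ) : ℤ) := by
      rw [Int.abs_eq_natAbs]
      exact_mod_cast Finset.single_le_sum (f := fun i : ℕ => (T.eval (-(i : ℤ))).natAbs)
        (fun _ _ => Nat.zero_le _) (Finset.mem_range.2 (by omega))
    have h7 : |b * e| ≤ |b| * r₀ := by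
      rw [abs_mul]
      apply mul_le_mul_of_nonneg_left _ (abs_nonneg b)
      rw [abs_of_pos (by omega)]
      have : (i : ℤ) ≤ r₀ := by exact_mod_cast hi
      omega
    have h8 := abs_add_le (T.eval (-(i : ℤ))) (b * e)
    push_cast at h6 ⊢
    linarith
  by_cases hdeg : 2 ≤ T.natDegree
  · have hmapd : (T.map (Int.castRingHom ℚ)).natDegree = T.natDegree :=
      natDegree_map_eq_of_injective (RingHom.injective_int _) _
    have hnd : ((T.map (Int.castRingHom ℚ)).comp (-X)).natDegree = T.natDegree := by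
      rw [natDegree_comp, natDegree_neg, natDegree_X, mul_one, hmapd]
    have hlt : (C (b : ℚ) * X : ℚ[X]).degree < ((T.map (Int.castRingHom ℚ)).comp (-X)).degree := by
      refine lt_of_le_of_lt (degree_C_mul_X_le _) ?_
      have h0 : (T.map (Int.castRingHom ℚ)).comp (-X) ≠ 0 := by
        intro h0
        rw [h0] at hnd
        simp at hnd
        omega
      rw [degree_eq_natDegree h0, hnd]
      exact_mod_cast (by omega : 1 < T.natDegree)
    obtain ⟨N₂, hN₂⟩ := eventually_atTop.1 (ev_small hlt 1 one_pos)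
    refine ⟨max N₁ N₂, fun r₀ => ?_⟩
    obtain ⟨H, hH⟩ := transfer r₀
    refine ⟨H, fun m hm ν _ hν _ i hi hir e he1 he2 p hp h1 h2 => ?_⟩
    have h3 := hH m (le_trans (le_max_left _ _) hm) ν hν i hir e he1 he2 p hp h1 h2
    obtain ⟨h4, h5⟩ := hN₂ i (le_trans (le_max_right _ _) hi)
    rw [abs_div, div_lt_one (abs_pos.2 h4), comp_neg_eval, eval_mul, eval_C, eval_X] at h5
    have h6 : T.eval (-(i : ℤ)) = -(b * e) := by linarith
    rw [h6] at h5
    push_cast at h5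
    rw [abs_neg, abs_mul, abs_mul] at h5
    have h7 : |(e : ℚ)| ≤ |(i : ℚ)| := by
      rw [abs_of_pos (by exact_mod_cast (by omega : 0 < e)), abs_of_nonneg (by positivity)]
      exact_mod_cast he2
    have h8 := mul_le_mul_of_nonneg_left h7 (abs_nonneg (b : ℚ))
    linarith
  · have hT1 := eq_X_add_C_of_natDegree_le_one (by omega : T.natDegree ≤ 1)
    set α := T.coeff 1 with hα
    set β := T.coeff 0 with hβ
    have hev : ∀ x : ℤ, T.eval x = α * x + β := by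
      intro x
      rw [hT1]
      simp
    refine ⟨max N₁ (β.natAbs + b.natAbs + 1), fun r₀ => ?_⟩
    obtain ⟨H, hH⟩ := transfer r₀
    refine ⟨H, fun m hm ν hmν hν hdvd i hi hir e he1 he2 p hp h1 h2 => ?_⟩
    have hm1 := le_trans (le_max_left _ _) hm
    have hm2 := le_trans (le_max_right _ _) hm
    have hi2 := le_trans (le_max_right _ _) hi
    have h3 := hH m hm1 ν hν i hir e he1 he2 p hp h1 h2
    have h4 := hN₁ m hm1 ν hν
    rw [hev] at h3 h4
    have hβ1 : β ≤ β.natAbs := Int.le_natAbs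
    have hm3 : (β.natAbs : ℤ) + b.natAbs + 1 ≤ m := by exact_mod_cast hm2
    have hi3 : (β.natAbs : ℤ) + b.natAbs + 1 ≤ i := by exact_mod_cast hi2
    have hbn : (b.natAbs : ℤ) = b := Int.natAbs_of_nonneg hb.le
    have hαb : b ≤ α := by
      by_contra hc
      have h5 : α ≤ b - 1 := by omega
      have h6 : b * (m + 1) ≤ b * ν := mul_le_mul_of_nonneg_left (by omega) hb.le
      have h7 : α * m ≤ (b - 1) * m := mul_le_mul_of_nonneg_right h5 (by positivity)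
      nlinarith
    have hαb' : α = b := by
      by_contra hc
      have h5 : b + 1 ≤ α := by omega
      have h6 : b * e ≤ b * i := mul_le_mul_of_nonneg_left he2 hb.le
      have h7 : (b + 1) * (i : ℤ) ≤ α * i := mul_le_mul_of_nonneg_right h5 (by positivity)
      nlinarith
    rw [hαb'] at h4
    have h5 : b * (ν - m) = β := by linarith
    have h6 : (m : ℤ) + 1 ∣ ν - m := by
      have : ν - m = (ν + 1) - (m + 1) := by ring
      rw [this]
      exact dvd_sub hdvd dvd_rfl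
    have h7 := Int.le_of_dvd (by omega) h6
    have h8 : (ν - m) ≤ β := by
      rw [← h5]
      nlinarith
    omega

end Pool.Agent.Helper32K9.St
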