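import Mathlib
import Pool.Agent.Helper32K9.St.Lin

/-!
# Integer points on a curve which is quadratic in `y`, close to a diagonal
-/

set_option autoImplicit false

namespace Pool.Agent.Helper32K9.St

open Polynomial Filter Topology

/-- the value of `A (x) + B (x) y + E (x) y ^ 2` -/
def ev (A B E : ℤ[X]) (x y : ℤ) : ℤ := A.eval x + B.eval x * y + E.eval x * y ^ 2

theorem ev_dvd (A B E : ℤ[X]) {m ν i e p : ℤ} (h1 : p ∣ m + i) (h2 : p ∣ ν + e) :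
    p ∣ ev A B E m ν - ev A B E (-i) (-e) := by
  have key : ∀ P : ℤ[X], p ∣ P.eval m - P.eval (-i) := by
    intro P
    refine dvd_trans ?_ (Polynomial.sub_dvd_eval_sub m (-i) P)
    rw [sub_neg_eq_add]; exact h1
  have e1 : ev A B E m ν - ev A B E (-i) (-e) = (A.eval m - A.eval (-i)) +
      (B.eval m - B.eval (-i)) * ν + B.eval (-i) * (ν + e) +
      (E.eval m - E.eval (-i)) * ν ^ 2 + E.eval (-i) * (ν - e) * (ν + e) := by
    unfold ev; ring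
  rw [e1]
  refine dvd_add (dvd_add (dvd_add (dvd_add (key A) ?_) ?_) ?_) ?_
  · exact Dvd.dvd.mul_right (key B) _
  · exact Dvd.dvd.mul_left h2 _
  · exact Dvd.dvd.mul_right (key E) _
  · exact Dvd.dvd.mul_left h2 _

/-- for large `p` the congruence at the small point is an equality -/
theorem ev_transfer (A B E : ℤ[X]) (r₀ : ℕ) : ∃ H : ℕ, ∀ m ν : ℤ, ev A B E m ν = 0 →
    ∀ i : ℕ, i ≤ r₀ → ∀ e : ℤ, 1 ≤ e → e ≤ i → ∀ p : ℤ, (H : ℤ) ≤ p → p ∣ m + i → p ∣ ν + e →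
    ev A B E (-(i : ℤ)) (-e) = 0 := by
  refine ⟨(∑ x ∈ Finset.range (r₀ + 1) ×ˢ Finset.range (r₀ + 1),
    (ev A B E (-(x.1 : ℤ)) (-(x.2 : ℤ))).natAbs) + 1, ?_⟩
  intro m ν h0 i hi e he1 he2 p hp h1 h2
  have h3 := ev_dvd A B E h1 h2
  rw [h0, zero_sub, dvd_neg] at h3
  refine Int.eq_zero_of_abs_lt_dvd h3 (lt_of_lt_of_le ?_ hp)
  have hir : (i : ℤ) ≤ r₀ := by exact_mod_cast hi
  obtain ⟨e', rfl⟩ := Int.eq_ofNat_of_zero_le (by omega : 0 ≤ e)
  have h4 : (ev A B E (-(i : ℤ)) (-(e' : ℤ))).natAbs ≤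
      ∑ x ∈ Finset.range (r₀ + 1) ×ˢ Finset.range (r₀ + 1),
        (ev A B E (-(x.1 : ℤ)) (-(x.2 : ℤ))).natAbs := by
    refine Finset.single_le_sum (f := fun x : ℕ × ℕ =>
      (ev A B E (-(x.1 : ℤ)) (-(x.2 : ℤ))).natAbs) (fun _ _ => Nat.zero_le _)
      (a := (i, e')) ?_
    rw [Finset.mem_product, Finset.mem_range, Finset.mem_range]
    constructor
    · show i < r₀ + 1; omega
    · show e' < r₀ + 1; omega
  rw [Int.abs_eq_natAbs]
  have h5 : ((ev A B E (-(i : ℤ)) (-(e' : ℤ))).natAbs : ℤ) ≤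
      ((∑ x ∈ Finset.range (r₀ + 1) ×ˢ Finset.range (r₀ + 1),
        (ev A B E (-(x.1 : ℤ)) (-(x.2 : ℤ))).natAbs : ℕ) : ℤ) := by exact_mod_cast h4
  rw [Nat.cast_add, Nat.cast_one]
  exact Int.lt_add_one_of_le h5

/-- the exclusion of the solutions on one curve -/
def GoodC (A B E : ℤ[X]) : Prop := ∃ s₀ : ℕ, ∀ s₁ : ℕ, ∃ N : ℕ, ∀ r₀ : ℕ, ∃ H : ℕ,
  ∀ m : ℕ, N ≤ m → ∀ ν : ℤ, (m : ℤ) < ν → ev A B E m ν = 0 → (m : ℤ) + 1 ∣ ν + 1 →
  ∀ i i' : ℕ, N ≤ i → i + s₀ ≤ i' → i' ≤ i + s₁ → i' ≤ r₀ →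
  ∀ e e' : ℤ, 1 ≤ e → e ≤ i → 1 ≤ e' → e' ≤ i' → ∀ p p' : ℤ, (H : ℤ) ≤ p → (H : ℤ) ≤ p' →
  p ∣ (m : ℤ) + i → p ∣ ν + e → p' ∣ (m : ℤ) + i' → p' ∣ ν + e' → False

theorem goodC (A B E : ℤ[X]) (h : A ≠ 0 ∨ B ≠ 0 ∨ E ≠ 0) : GoodC A B E := by
  by_cases hE : E = 0
  · by_cases hB : B = 0
    · have hA : A ≠ 0 := by tauto
      subst hE hB
      have hA' : A.map (Int.castRingHom ℚ) ≠ 0 :=
        (Polynomial.map_ne_zero_iff (RingHom.injective_int _)).2 hA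
      obtain ⟨N, hN⟩ := eventually_atTop.1 ((tendsto_natCast_atTop_atTop (R := ℚ)).eventually
        (eventually_atTop_not_isRoot _ hA'))
      refine ⟨0, fun s₁ => ⟨N, fun r₀ => ⟨0, ?_⟩⟩⟩
      intro m hm ν _ h0
      exfalso
      apply hN m hm
      rw [IsRoot.def]
      have : (A.map (Int.castRingHom ℚ)).eval (((m : ℕ) : ℤ) : ℚ) =
          ((A.eval (m : ℤ) : ℤ) : ℚ) := by rw [eval_intCast_map]; rfl
      unfold ev at h0
      simp only [eval_zero, zero_mul, add_zero] at h0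
      rw [h0] at this
      push_cast at this
      exact this
    · subst hE
      obtain ⟨N, hN⟩ := lin_final A B hB
      refine ⟨0, fun s₁ => ⟨N, fun r₀ => ?_⟩⟩
      obtain ⟨H, hH⟩ := hN r₀
      refine ⟨H, ?_⟩
      intro m hm ν hmν h0 hdvd i i' hi h1 _ h3 e e' h4 h5 _ _ p p' hp _ h8 h9 _ _
      refine hH m hm ν hmν ?_ hdvd i hi (by omega) e h4 h5 p hp h8 h9
      unfold ev at h0
      simpa using h0
  · set Δ : ℤ[X] := B ^ 2 - 4 * A * E with hΔ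
    set g := Δ.comp (-X) with hg
    have hid : ∀ x y : ℤ, ev A B E x y = 0 →
        (2 * E.eval x * y + B.eval x) ^ 2 = Δ.eval x := by
      intro x y h0
      have : (2 * E.eval x * y + B.eval x) ^ 2 - Δ.eval x = 4 * E.eval x * ev A B E x y := by
        rw [hΔ]
        unfold ev
        simp only [eval_sub, eval_pow, eval_mul]
        have : (4 : ℤ[X]).eval x = 4 := by
          rw [show (4 : ℤ[X]) = C 4 by rfl, eval_C]
        rw [this]
        ring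
      rw [h0, mul_zero] at this
      linarith
    have hgev : ∀ i : ℤ, g.eval i = Δ.eval (-i) := by
      intro i
      rw [hg, eval_comp, eval_neg, eval_X]
    have hcase : (∃ w : ℚ[X], g.map (Int.castRingHom ℚ) = w ^ 2) ∨ ∃ s₀ : ℕ, ∀ s, s₀ ≤ s →
        ∀ᶠ i : ℕ in atTop, ¬ ((∃ u : ℤ, g.eval (i : ℤ) = u ^ 2) ∧
          ∃ v : ℤ, g.eval ((i + s : ℕ) : ℤ) = v ^ 2) := by
      by_cases hg0 : g = 0
      · left
        refine ⟨0, ?_⟩
        rw [hg0]; simp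
      · exact sq_far g hg0
    rcases hcase with ⟨w, hw⟩ | ⟨s₀, hs₀⟩
    · obtain ⟨b, hb, D, hD⟩ := clear_den w
      -- `D (-m) ^ 2 = b ^ 2 Δ (m)`
      have hD2 : ∀ x : ℤ, (D.eval (-x)) ^ 2 = b ^ 2 * Δ.eval x := by
        intro x
        have h1 := eval_clear hD (-x)
        have h2 : (g.map (Int.castRingHom ℚ)).eval (((-x : ℤ)) : ℚ) =
            ((g.eval (-x) : ℤ) : ℚ) := by rw [eval_intCast_map]; rfl
        rw [hw, eval_pow, hgev, neg_neg] at h2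
        have h3 : (((D.eval (-x)) ^ 2 : ℤ) : ℚ) = ((b ^ 2 * Δ.eval x : ℤ) : ℚ) := by
          push_cast
          rw [h1, mul_pow, h2]
        exact_mod_cast h3
      have hB1 : (C (2 * b) * E : ℤ[X]) ≠ 0 := by
        apply mul_ne_zero _ hE
        rw [Ne, C_eq_zero]
        omega
      obtain ⟨N₁, hN₁⟩ := lin_final (C b * B - D.comp (-X)) (C (2 * b) * E) hB1
      obtain ⟨N₂, hN₂⟩ := lin_final (C b * B + D.comp (-X)) (C (2 * b) * E) hB1
      refine ⟨0, fun s₁ => ⟨max N₁ N₂, fun r₀ => ?_⟩⟩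
      obtain ⟨H₁, hH₁⟩ := hN₁ r₀
      obtain ⟨H₂, hH₂⟩ := hN₂ r₀
      refine ⟨max H₁ H₂, ?_⟩
      intro m hm ν hmν h0 hdvd i i' hi h1 _ h3 e e' h4 h5 _ _ p p' hp _ h8 h9 _ _
      have e1 := hid m ν h0
      have e2 := hD2 m
      have e3 : (b * (2 * E.eval (m : ℤ) * ν + B.eval (m : ℤ))) ^ 2 = (D.eval (-(m : ℤ))) ^ 2 := by
        rw [mul_pow, e1, e2]
      have hp' : ((max H₁ H₂ : ℕ) : ℤ) ≤ p := hp
      rw [Nat.cast_max] at hp'
      rcases sq_eq_sq_iff_eq_or_eq_neg.1 e3 with h' | h'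
      · refine hH₁ m (le_trans (le_max_left _ _) hm) ν hmν ?_ hdvd i
          (le_trans (le_max_left _ _) hi) (by omega) e h4 h5 p
          (le_trans (le_max_left _ _) hp') h8 h9
        simp only [eval_sub, eval_mul, eval_C, eval_comp, eval_neg, eval_X]
        linarith
      · refine hH₂ m (le_trans (le_max_right _ _) hm) ν hmν ?_ hdvd i
          (le_trans (le_max_right _ _) hi) (by omega) e h4 h5 p
          (le_trans (le_max_right _ _) hp') h8 h9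
        simp only [eval_add, eval_mul, eval_C, eval_comp, eval_neg, eval_X]
        linarith
    · refine ⟨s₀, fun s₁ => ?_⟩
      have hall : ∀ᶠ i : ℕ in atTop, ∀ s ∈ Finset.Icc s₀ s₁,
          ¬ ((∃ u : ℤ, g.eval (i : ℤ) = u ^ 2) ∧ ∃ v : ℤ, g.eval ((i + s : ℕ) : ℤ) = v ^ 2) := by
        rw [Filter.eventually_all_finset]
        intro s hs
        exact hs₀ s (Finset.mem_Icc.1 hs).1
      obtain ⟨N, hN⟩ := eventually_atTop.1 hall
      refine ⟨N, fun r₀ => ?_⟩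
      obtain ⟨H, hH⟩ := ev_transfer A B E r₀
      refine ⟨H, ?_⟩
      intro m hm ν hmν h0 _ i i' hi h1 h2 h3 e e' h4 h5 h6 h7 p p' hp hp' h8 h9 h10 h11
      have t1 := hH m ν h0 i (by omega) e h4 h5 p hp h8 h9
      have t2 := hH m ν h0 i' h3 e' h6 h7 p' hp' h10 h11
      have u1 := hid _ _ t1
      have u2 := hid _ _ t2
      refine hN i hi (i' - i) (Finset.mem_Icc.2 ⟨by omega, by omega⟩)
        ⟨⟨2 * E.eval (-(i : ℤ)) * (-e) + B.eval (-(i : ℤ)), ?_⟩,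
          ⟨2 * E.eval (-(i' : ℤ)) * (-e') + B.eval (-(i' : ℤ)), ?_⟩⟩
      · rw [hgev]; exact u1.symm
      · rw [show i + (i' - i) = i' by omega, hgev]; exact u2.symm

end Pool.Agent.Helper32K9.St
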