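import Mathlib
import Pool.Agent.Helper32K9.St.Good

/-!
# The deterministic part: an integer with large prime factors in short windows
-/

set_option autoImplicit false

namespace Pool.Agent.Helper32K9.St

open Polynomial Filter Topology

/-- `m + i` has a prime factor larger than `X ^ (2 / 5)` -/
def J (X m i : ℕ) : Prop := ∃ p : ℕ, p.Prime ∧ X ^ 2 < p ^ 5 ∧ p ∣ m + i

theorem sumX_coeff {n : ℕ} (t : Fin n → ℤ) (k : Fin n) :
    (∑ j : Fin n, C (t j) * X ^ (j : ℕ) : ℤ[X]).coeff k = t k := by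
  rw [finsetSum_coeff]
  simp only [coeff_C_mul, coeff_X_pow]
  rw [Finset.sum_eq_single k]
  · simp
  · intro b _ hb
    rw [if_neg (fun h => hb (Fin.ext h).symm)]; ring
  · simp

theorem sumX_deg {n : ℕ} (t : Fin (n + 1) → ℤ) :
    (∑ j : Fin (n + 1), C (t j) * X ^ (j : ℕ) : ℤ[X]).natDegree ≤ n := by
  refine natDegree_sum_le_of_forall_le _ _ fun j _ => ?_
  exact (natDegree_C_mul_X_pow_le _ _).trans (by omega)

theorem sumX_eval {n : ℕ} (t : Fin n → ℤ) (x : ℤ) :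
    (∑ j : Fin n, C (t j) * X ^ (j : ℕ) : ℤ[X]).eval x = ∑ j : Fin n, t j * x ^ (j : ℕ) := by
  rw [eval_finsetSum]
  simp

theorem exF (c : ℕ) (T : Finset ℕ) (hT : T.card = 15 * c + 17) (e : ℕ → ℤ) :
    ∃ A B E : ℤ[X], (A ≠ 0 ∨ B ≠ 0 ∨ E ≠ 0) ∧ A.natDegree ≤ 6 * c + 5 ∧
      B.natDegree ≤ 5 * c + 5 ∧ E.natDegree ≤ 4 * c + 5 ∧
      ∀ i ∈ T, ev A B E (-(i : ℤ)) (-e i) = 0 := by
  classical
  set M : Matrix T (Fin (6 * c + 5 + 1) ⊕ Fin (5 * c + 5 + 1) ⊕ Fin (4 * c + 5 + 1)) ℤ :=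
    fun i x => match x with
      | Sum.inl j => (-((i : ℕ) : ℤ)) ^ (j : ℕ)
      | Sum.inr (Sum.inl j) => (-((i : ℕ) : ℤ)) ^ (j : ℕ) * (-e i)
      | Sum.inr (Sum.inr j) => (-((i : ℕ) : ℤ)) ^ (j : ℕ) * (-e i) ^ 2 with hM
  have hc1 : Fintype.card T < Fintype.card
      (Fin (6 * c + 5 + 1) ⊕ Fin (5 * c + 5 + 1) ⊕ Fin (4 * c + 5 + 1)) := by
    simp only [Fintype.card_coe, Fintype.card_sum, Fintype.card_fin]
    omega
  have hc2 : 0 < Fintype.card T := by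
    rw [Fintype.card_coe]; omega
  obtain ⟨t, ht, hMt, -⟩ := Int.Matrix.exists_ne_zero_int_vec_norm_le M hc1 hc2
  refine ⟨∑ j : Fin (6 * c + 5 + 1), C (t (Sum.inl j)) * X ^ (j : ℕ),
    ∑ j : Fin (5 * c + 5 + 1), C (t (Sum.inr (Sum.inl j))) * X ^ (j : ℕ),
    ∑ j : Fin (4 * c + 5 + 1), C (t (Sum.inr (Sum.inr j))) * X ^ (j : ℕ), ?_,
    sumX_deg (n := 6 * c + 5) _, sumX_deg (n := 5 * c + 5) _, sumX_deg (n := 4 * c + 5) _, ?_⟩
  · by_contra hcon
    push Not at hcon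
    obtain ⟨h1, h2, h3⟩ := hcon
    apply ht
    funext x
    rcases x with j | j | j
    · have := sumX_coeff (fun j => t (Sum.inl j)) j
      rw [h1] at this
      simpa using this.symm
    · have := sumX_coeff (fun j => t (Sum.inr (Sum.inl j))) j
      rw [h2] at this
      simpa using this.symm
    · have := sumX_coeff (fun j => t (Sum.inr (Sum.inr j))) j
      rw [h3] at this
      simpa using this.symm
  · intro i hi
    have h1 := congrFun hMt ⟨i, hi⟩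
    simp only [Matrix.mulVec, dotProduct, Fintype.sum_sum_type, hM, Pi.zero_apply] at h1
    unfold ev
    rw [sumX_eval, sumX_eval, sumX_eval, Finset.sum_mul, Finset.sum_mul, ← h1, add_assoc]
    congr 1
    · exact Finset.sum_congr rfl fun j _ => by ring
    · congr 1
      · exact Finset.sum_congr rfl fun j _ => by ring
      · exact Finset.sum_congr rfl fun j _ => by ring

/-- the sum of the absolute values of the coefficients -/
noncomputable def nm1 (d : ℕ) (P : ℤ[X]) : ℕ := ∑ j ∈ Finset.range (d + 1), (P.coeff j).natAbs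

theorem eval_bound (d : ℕ) (P : ℤ[X]) (hP : P.natDegree ≤ d) {Y m : ℕ} (hY : 1 ≤ Y)
    (hm : m ≤ Y) : (P.eval (m : ℤ)).natAbs ≤ nm1 d P * Y ^ d := by
  rw [eval_eq_sum_range' (by omega : P.natDegree < d + 1)]
  refine (Int.natAbs_sum_le _ _).trans ?_
  unfold nm1
  rw [Finset.sum_mul]
  refine Finset.sum_le_sum fun j hj => ?_
  rw [Int.natAbs_mul, Int.natAbs_pow, Int.natAbs_natCast]
  apply Nat.mul_le_mul_left
  exact (Nat.pow_le_pow_left hm j).trans (Nat.pow_le_pow_right hY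
    (by have := Finset.mem_range.1 hj; omega))

theorem det (c W : ℕ) : ∃ s₀ N M : ℕ, ∀ Y m ν : ℕ, M ≤ Y → M ≤ m → m ≤ Y → m < ν →
    ν ≤ Y ^ c → m + 1 ∣ ν + 1 →
    (∀ i, 1 ≤ i → i ≤ N + 2 * W + s₀ → ∀ p : ℕ, p.Prime → N + 2 * W + s₀ < p → p ∣ m + i →
      ∃ e, 1 ≤ e ∧ e ≤ i ∧ p ∣ ν + e) →
    (∃ T : Finset ℕ, (∀ i ∈ T, 1 ≤ i ∧ i ≤ W ∧ J Y m i) ∧ T.card = 15 * c + 17) →
    (∃ i, N < i ∧ i ≤ N + W ∧ J Y m i) →
    (∃ i, N + W + s₀ < i ∧ i ≤ N + 2 * W + s₀ ∧ J Y m i) → False := by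
  classical
  -- the patterns
  have hex : ∀ π : Finset (Fin (W + 1)) × (Fin (W + 1) → Fin (W + 1)), ∃ A B E : ℤ[X],
      (A ≠ 0 ∨ B ≠ 0 ∨ E ≠ 0) ∧ A.natDegree ≤ 6 * c + 5 ∧
      B.natDegree ≤ 5 * c + 5 ∧ E.natDegree ≤ 4 * c + 5 ∧
      (π.1.card = 15 * c + 17 → ∀ i ∈ π.1, ev A B E (-((i : ℕ) : ℤ)) (-((π.2 i : ℕ) : ℤ)) = 0) := by
    intro π
    by_cases h : π.1.card = 15 * c + 17
    · obtain ⟨A, B, E, h1, h2, h3, h4, h5⟩ := exF c (π.1.map Fin.valEmbedding)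
        (by rw [Finset.card_map]; exact h)
        (fun i => if h : i < W + 1 then ((π.2 ⟨i, h⟩ : ℕ) : ℤ) else 0)
      refine ⟨A, B, E, h1, h2, h3, h4, fun _ i hi => ?_⟩
      have h6 := h5 (i : ℕ) (Finset.mem_map.2 ⟨i, hi, rfl⟩)
      rw [dif_pos i.2] at h6
      exact h6
    · exact ⟨1, 0, 0, Or.inl one_ne_zero, by simp, by simp, by simp, fun h' => absurd h' h⟩
  choose A B E hne hA hB hE hvan using hex
  have hgood := fun π => goodC (A π) (B π) (E π) (hne π)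
  choose s hs using hgood
  set s₀ := Finset.univ.sup s with hs₀
  have hsle : ∀ π, s π ≤ s₀ := fun π => Finset.le_sup (f := s) (Finset.mem_univ π)
  choose N' hN' using fun π => hs π (s₀ + 2 * W)
  set N := Finset.univ.sup N' with hN
  have hNle : ∀ π, N' π ≤ N := fun π => Finset.le_sup (f := N') (Finset.mem_univ π)
  choose H' hH' using fun π => hN' π (N + 2 * W + s₀)
  set H := Finset.univ.sup H' with hH
  have hHle : ∀ π, H' π ≤ H := fun π => Finset.le_sup (f := H') (Finset.mem_univ π)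
  set S' : Finset (Fin (W + 1)) × (Fin (W + 1) → Fin (W + 1)) → ℕ := fun π =>
    nm1 (6 * c + 5) (A π) + nm1 (5 * c + 5) (B π) + nm1 (4 * c + 5) (E π) with hS'
  set S := Finset.univ.sup S' with hS
  have hSle : ∀ π, S' π ≤ S := fun π => Finset.le_sup (f := S') (Finset.mem_univ π)
  set P₀ := H + (N + 2 * W + s₀) + 1 with hP₀
  refine ⟨s₀, N, N + P₀ ^ 5 + S ^ 5 + 1, ?_⟩
  intro Y m ν hMY hMm hmY hmν hνY hdvd hD hT hi1 hi2
  have hY1 : 1 ≤ Y := by omega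
  -- the primes are large
  have hbig : ∀ p : ℕ, Y ^ 2 < p ^ 5 → P₀ < p := by
    intro p hp
    by_contra hc
    have h1 : p ^ 5 ≤ P₀ ^ 5 := Nat.pow_le_pow_left (by omega) 5
    have h2 : Y ≤ Y ^ 2 := Nat.le_self_pow (by norm_num) Y
    omega
  obtain ⟨T, hTm, hTc⟩ := hT
  -- the primes and the residues
  have hch : ∀ i : ℕ, ∃ p e : ℕ, (1 ≤ i ∧ i ≤ N + 2 * W + s₀ ∧ J Y m i) →
      p.Prime ∧ Y ^ 2 < p ^ 5 ∧ p ∣ m + i ∧ 1 ≤ e ∧ e ≤ i ∧ p ∣ ν + e := by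
    intro i
    by_cases h : 1 ≤ i ∧ i ≤ N + 2 * W + s₀ ∧ J Y m i
    · obtain ⟨h1, h2, p, hp, hp2, hp3⟩ := h
      obtain ⟨e, he1, he2, he3⟩ := hD i h1 h2 p hp (by have := hbig p hp2; omega) hp3
      exact ⟨p, e, fun _ => ⟨hp, hp2, hp3, he1, he2, he3⟩⟩
    · exact ⟨0, 0, fun h' => absurd h' h⟩
  choose P e hPe using hch
  have hPe' : ∀ i ∈ T, (P i).Prime ∧ Y ^ 2 < (P i) ^ 5 ∧ (P i) ∣ m + i ∧ 1 ≤ e i ∧ e i ≤ i ∧
      (P i) ∣ ν + e i := by
    intro i hi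
    obtain ⟨h1, h2, h3⟩ := hTm i hi
    exact hPe i ⟨h1, by omega, h3⟩
  -- the pattern
  set π : Finset (Fin (W + 1)) × (Fin (W + 1) → Fin (W + 1)) :=
    (Finset.univ.filter (fun i : Fin (W + 1) => (i : ℕ) ∈ T),
      fun i => if h : e i < W + 1 then ⟨e i, h⟩ else 0) with hπ
  have hπc : π.1.card = 15 * c + 17 := by
    rw [← hTc]
    have : π.1.map Fin.valEmbedding = T := by
      ext i
      rw [Finset.mem_map]
      constructor
      · rintro ⟨j, hj, rfl⟩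
        exact (Finset.mem_filter.1 hj).2
      · intro hi
        obtain ⟨h1, h2, _⟩ := hTm i hi
        exact ⟨⟨i, by omega⟩, Finset.mem_filter.2 ⟨Finset.mem_univ _, hi⟩, rfl⟩
    rw [← this, Finset.card_map]
  have hv : ∀ i ∈ T, ev (A π) (B π) (E π) (-(i : ℤ)) (-(e i : ℤ)) = 0 := by
    intro i hi
    obtain ⟨h1, h2, _⟩ := hTm i hi
    have h3 := (hPe' i hi).2.2.2.2.1
    have h4 := hvan π hπc ⟨i, by omega⟩ (Finset.mem_filter.2 ⟨Finset.mem_univ _, hi⟩)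
    have h5 : ((π.2 ⟨i, by omega⟩ : Fin (W + 1)) : ℕ) = e i := by
      rw [hπ]
      simp only
      rw [dif_pos (by omega)]
    rw [h5] at h4
    exact h4
  set V := ev (A π) (B π) (E π) m ν with hV
  have hPV : ∀ i ∈ T, ((P i : ℕ) : ℤ) ∣ V := by
    intro i hi
    obtain ⟨h1, h2, h3, h4, h5, h6⟩ := hPe' i hi
    have h7 := ev_dvd (A π) (B π) (E π) (m := (m : ℤ)) (ν := (ν : ℤ)) (i := (i : ℤ))
      (e := (e i : ℤ)) (p := ((P i : ℕ) : ℤ)) (by exact_mod_cast h3) (by exact_mod_cast h6)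
    rw [hv i hi, sub_zero] at h7
    exact h7
  have hprod : ((∏ i ∈ T, P i : ℕ) : ℤ) ∣ V := by
    rw [Nat.cast_prod]
    refine Finset.prod_dvd_of_coprime ?_ hPV
    intro i hi j hj hij
    obtain ⟨h1, h2, h3, _⟩ := hPe' i hi
    obtain ⟨k1, k2, k3, _⟩ := hPe' j hj
    show IsCoprime ((P i : ℕ) : ℤ) ((P j : ℕ) : ℤ)
    rw [Nat.isCoprime_iff_coprime, Nat.coprime_primes h1 k1]
    intro heq
    rw [← heq] at k3
    have hb := hbig _ h2
    obtain ⟨a1, a2, _⟩ := hTm i hi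
    obtain ⟨b1, b2, _⟩ := hTm j hj
    rcases Nat.lt_or_gt_of_ne hij with h | h
    · have h5 : P i ∣ (m + j) - (m + i) := Nat.dvd_sub k3 h3
      have := Nat.le_of_dvd (by omega) h5
      omega
    · have h5 : P i ∣ (m + i) - (m + j) := Nat.dvd_sub h3 k3
      have := Nat.le_of_dvd (by omega) h5
      omega
  have hV0 : V = 0 := by
    by_contra hne0
    have h1 : ∏ i ∈ T, P i ≤ V.natAbs := by
      have := Int.natAbs_dvd_natAbs.2 hprod
      rw [Int.natAbs_natCast] at this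
      exact Nat.le_of_dvd (Int.natAbs_pos.2 hne0) this
    have h2 : V.natAbs ≤ S * Y ^ (6 * c + 5) := by
      have g1 := eval_bound (6 * c + 5) (A π) (hA π) hY1 hmY
      have g2 := eval_bound (5 * c + 5) (B π) (hB π) hY1 hmY
      have g3 := eval_bound (4 * c + 5) (E π) (hE π) hY1 hmY
      have g4 : V.natAbs ≤ ((A π).eval (m : ℤ)).natAbs + ((B π).eval (m : ℤ)).natAbs * ν +
          ((E π).eval (m : ℤ)).natAbs * ν ^ 2 := by
        rw [hV]
        unfold ev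
        refine (Int.natAbs_add_le _ _).trans ?_
        refine add_le_add ((Int.natAbs_add_le _ _).trans ?_) ?_
        · rw [Int.natAbs_mul, Int.natAbs_natCast]
        · rw [Int.natAbs_mul, Int.natAbs_pow, Int.natAbs_natCast]
      refine g4.trans ?_
      have g5 : ((B π).eval (m : ℤ)).natAbs * ν ≤ nm1 (5 * c + 5) (B π) * Y ^ (6 * c + 5) := by
        calc ((B π).eval (m : ℤ)).natAbs * ν ≤
              (nm1 (5 * c + 5) (B π) * Y ^ (5 * c + 5)) * Y ^ c := Nat.mul_le_mul g2 hνY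
          _ = nm1 (5 * c + 5) (B π) * Y ^ (6 * c + 5) := by
              rw [mul_assoc, ← pow_add]; congr 2; ring
      have g6 : ((E π).eval (m : ℤ)).natAbs * ν ^ 2 ≤
          nm1 (4 * c + 5) (E π) * Y ^ (6 * c + 5) := by
        calc ((E π).eval (m : ℤ)).natAbs * ν ^ 2 ≤
              (nm1 (4 * c + 5) (E π) * Y ^ (4 * c + 5)) * (Y ^ c) ^ 2 :=
              Nat.mul_le_mul g3 (Nat.pow_le_pow_left hνY 2)
          _ = nm1 (4 * c + 5) (E π) * Y ^ (6 * c + 5) := by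
              rw [mul_assoc, ← pow_mul, ← pow_add]; congr 2; ring
      calc _ ≤ nm1 (6 * c + 5) (A π) * Y ^ (6 * c + 5) + nm1 (5 * c + 5) (B π) * Y ^ (6 * c + 5) +
            nm1 (4 * c + 5) (E π) * Y ^ (6 * c + 5) := add_le_add (add_le_add g1 g5) g6
        _ = S' π * Y ^ (6 * c + 5) := by rw [hS']; ring
        _ ≤ S * Y ^ (6 * c + 5) := Nat.mul_le_mul_right _ (hSle π)
    have h3 : (Y ^ 2) ^ (15 * c + 17) ≤ (∏ i ∈ T, P i) ^ 5 := by
      rw [← Finset.prod_pow, ← hTc, ← Finset.prod_const]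
      exact Finset.prod_le_prod (fun _ _ => Nat.zero_le _) fun i hi => (hPe' i hi).2.1.le
    have h4 : (∏ i ∈ T, P i) ^ 5 ≤ (S * Y ^ (6 * c + 5)) ^ 5 :=
      Nat.pow_le_pow_left (h1.trans h2) 5
    have h5 : Y ^ (30 * c + 25) * Y ^ 9 ≤ Y ^ (30 * c + 25) * S ^ 5 := by
      calc Y ^ (30 * c + 25) * Y ^ 9 = (Y ^ 2) ^ (15 * c + 17) := by
            rw [← pow_add, ← pow_mul]; congr 1; ring
        _ ≤ (S * Y ^ (6 * c + 5)) ^ 5 := h3.trans h4
        _ = Y ^ (30 * c + 25) * S ^ 5 := by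
            rw [mul_pow, ← pow_mul, mul_comm]; congr 2; ring
    have h6 : Y ^ 9 ≤ S ^ 5 := Nat.le_of_mul_le_mul_left h5 (Nat.pow_pos (by omega))
    have h7 : Y ≤ Y ^ 9 := Nat.le_self_pow (by norm_num) Y
    omega
  -- the two further places
  obtain ⟨i, hi1a, hi1b, hJ1⟩ := hi1
  obtain ⟨i', hi2a, hi2b, hJ2⟩ := hi2
  obtain ⟨p1, p2, p3, p4, p5, p6⟩ := hPe i ⟨by omega, by omega, hJ1⟩
  obtain ⟨q1, q2, q3, q4, q5, q6⟩ := hPe i' ⟨by omega, by omega, hJ2⟩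
  have b1 := hbig _ p2
  have b2 := hbig _ q2
  have l1 := hHle π
  have l2 := hNle π
  have l3 := hsle π
  refine hH' π m (by omega) (ν : ℤ) (by exact_mod_cast hmν) hV0 (by exact_mod_cast hdvd) i i'
    (by omega) (by omega) (by omega) hi2b (e i : ℤ) (e i' : ℤ) (by exact_mod_cast p4)
    (by exact_mod_cast p5) (by exact_mod_cast q4) (by exact_mod_cast q5)
    ((P i : ℕ) : ℤ) ((P i' : ℕ) : ℤ) (by exact_mod_cast (by omega : H' π ≤ P i))
    (by exact_mod_cast (by omega : H' π ≤ P i')) (by exact_mod_cast p3) (by exact_mod_cast p6)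
    (by exact_mod_cast q3) (by exact_mod_cast q6)

end Pool.Agent.Helper32K9.St
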