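import Mathlib
import Pool.Agent.Helper42.ChebRecip
import Pool.Agent.Helper32K9.St.Det

/-!
# Most short windows contain many integers with a prime factor larger than `X ^ (2 / 5)`
-/

set_option autoImplicit false

namespace Pool.Agent.Helper32K9.St

open Finset Filter Topology

/-- the primes between `X ^ (2 / 5)` and `X ^ (9 / 20)` -/
def PP (X : ℕ) : Finset ℕ :=
  (range (X + 1)).filter (fun p => p.Prime ∧ X ^ 2 < p ^ 5 ∧ p ^ 20 ≤ X ^ 9)

noncomputable def lam (X : ℕ) : ℝ := ∑ p ∈ PP X, (1 : ℝ) / p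

theorem cnt_le (X d : ℕ) (hd : 0 < d) (S : Finset ℕ) (hS : ∀ m ∈ S, 1 ≤ m ∧ m ≤ X)
    (hdiff : ∀ m ∈ S, ∀ m' ∈ S, m < m' → d ∣ m' - m) : (S.card : ℝ) ≤ X / d + 1 := by
  have h1 : S.card ≤ ((X : ℕ) - 1) / d + 1 := by
    rw [← card_range (((X : ℕ) - 1) / d + 1)]
    refine card_le_card_of_injOn (fun m => (m - 1) / d) ?_ ?_
    · intro m hm
      obtain ⟨h1, h2⟩ := hS m hm
      have h3 : (m - 1) / d ≤ (X - 1) / d := Nat.div_le_div_right (by omega)
      simp only [coe_range, Set.mem_Iio]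
      omega
    · intro m hm m' hm' heq
      simp only at heq
      have key : ∀ a b : ℕ, a ∈ S → b ∈ S → a < b → (a - 1) / d ≠ (b - 1) / d := by
        intro a b ha hb hab h
        have h1 := hdiff a ha b hb hab
        have h2 := Nat.le_of_dvd (by omega) h1
        obtain ⟨h3, _⟩ := hS a ha
        have h4 : (a - 1 + d) / d ≤ (b - 1) / d := Nat.div_le_div_right (by omega)
        rw [Nat.add_div_right _ hd] at h4
        omega
      rcases lt_trichotomy m m' with h | h | h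
      · exact absurd heq (key m m' hm hm' h)
      · exact h
      · exact absurd heq.symm (key m' m hm' hm h)
  have h2 : (S.card : ℝ) ≤ (((X - 1) / d + 1 : ℕ) : ℝ) := by exact_mod_cast h1
  refine h2.trans ?_
  push_cast
  have h3 : (((X - 1) / d : ℕ) : ℝ) ≤ ((X - 1 : ℕ) : ℝ) / d := Nat.cast_div_le
  have h4 : ((X - 1 : ℕ) : ℝ) / d ≤ (X : ℝ) / d := by
    apply div_le_div_of_nonneg_right _ (by positivity)
    exact_mod_cast Nat.sub_le X 1
  linarith

theorem cnt_ge (X p i : ℕ) (hp : 0 < p) :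
    (X : ℝ) / p - 1 ≤ (((Icc 1 X).filter (fun m => p ∣ m + i)).card : ℝ) := by
  have h1 : ((Icc 1 X).filter (fun m => p ∣ m + i)).card =
      ((Ioc i (i + X)).filter (fun n => p ∣ n)).card := by
    refine card_bij (fun m _ => m + i) ?_ ?_ ?_
    · intro m hm
      rw [mem_filter, mem_Icc] at hm
      rw [mem_filter, mem_Ioc]
      exact ⟨⟨by omega, by omega⟩, hm.2⟩
    · intro a _ b _ h
      simpa using h
    · intro n hn
      rw [mem_filter, mem_Ioc] at hn
      refine ⟨n - i, ?_, by omega⟩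
      rw [mem_filter, mem_Icc]
      refine ⟨⟨by omega, by omega⟩, ?_⟩
      rw [show n - i + i = n by omega]
      exact hn.2
  have h2 : ((Ioc 0 (i + X)).filter (fun n => p ∣ n)).card =
      ((Ioc 0 i).filter (fun n => p ∣ n)).card + ((Ioc i (i + X)).filter (fun n => p ∣ n)).card := by
    rw [← card_union_of_disjoint, ← filter_union, Ioc_union_Ioc_eq_Ioc (by omega) (by omega)]
    exact disjoint_filter_filter (Ioc_disjoint_Ioc_of_le le_rfl)
  rw [Nat.Ioc_filter_dvd_card_eq_div, Nat.Ioc_filter_dvd_card_eq_div] at h2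
  rw [h1]
  have h3 : (((i + X) / p : ℕ) : ℝ) = ((i / p : ℕ) : ℝ) +
      (((Ioc i (i + X)).filter (fun n => p ∣ n)).card : ℝ) := by exact_mod_cast h2
  have h4 : ((i / p : ℕ) : ℝ) ≤ (i : ℝ) / p := Nat.cast_div_le
  have h5 : ((i + X : ℕ) : ℝ) / p < (((i + X) / p : ℕ) : ℝ) + 1 := by
    rw [div_lt_iff₀ (by exact_mod_cast hp)]
    have h6 := Nat.div_add_mod (i + X) p
    have h7 := Nat.mod_lt (i + X) hp
    have h8 : i + X < ((i + X) / p + 1) * p := by nlinarith
    exact_mod_cast h8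
  push_cast at h5
  rw [add_div] at h5
  linarith

theorem le_two (X n : ℕ) (hX : 32 ≤ X) (hn0 : 0 < n) (hn : n ≤ 2 * X) :
    ((PP X).filter (fun p => p ∣ n)).card ≤ 2 := by
  by_contra hc
  push Not at hc
  obtain ⟨a, ha, b, hb, c, hcc, hab, hac, hbc⟩ := two_lt_card.1 hc
  unfold PP at ha hb hcc
  simp only [mem_filter, mem_range] at ha hb hcc
  obtain ⟨⟨-, ha1, ha2, -⟩, ha3⟩ := ha
  obtain ⟨⟨-, hb1, hb2, -⟩, hb3⟩ := hb
  obtain ⟨⟨-, hc1, hc2, -⟩, hc3⟩ := hcc
  have h1 : a * b ∣ n := Nat.Coprime.mul_dvd_of_dvd_of_dvd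
    ((Nat.coprime_primes ha1 hb1).2 hab) ha3 hb3
  have h2 : a * b * c ∣ n := Nat.Coprime.mul_dvd_of_dvd_of_dvd
    (Nat.Coprime.mul_left ((Nat.coprime_primes ha1 hc1).2 hac)
      ((Nat.coprime_primes hb1 hc1).2 hbc)) h1 hc3
  have h3 := Nat.le_of_dvd hn0 h2
  have h4 : (a * b * c) ^ 5 ≤ (2 * X) ^ 5 := Nat.pow_le_pow_left (h3.trans hn) 5
  have h5 : X ^ 2 * X ^ 2 * X ^ 2 < (a * b * c) ^ 5 := by
    rw [mul_pow, mul_pow]
    exact Nat.mul_lt_mul_of_lt_of_lt (Nat.mul_lt_mul_of_lt_of_lt ha2 hb2) hc2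
  have h6 : (2 * X) ^ 5 ≤ X ^ 2 * X ^ 2 * X ^ 2 := by
    calc (2 * X) ^ 5 = 32 * X ^ 5 := by ring
      _ ≤ X * X ^ 5 := Nat.mul_le_mul_right _ hX
      _ = X ^ 2 * X ^ 2 * X ^ 2 := by ring
  omega

/-- the second moment -/
theorem second (X u W : ℕ) (hW : 1 ≤ W) (hX : W ^ 5 ≤ X ^ 2) (hP : 1 ≤ (PP X).card) :
    ∑ m ∈ Icc 1 X, ((∑ κ ∈ Ioc u (u + W) ×ˢ PP X, (if κ.2 ∣ m + κ.1 then (1 : ℝ) else 0)) -
      W * lam X) ^ 2 ≤ X * (W * lam X) + 4 * W ^ 2 * (PP X).card ^ 2 := by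
  classical
  set I := Ioc u (u + W) ×ˢ PP X with hI
  set P := ((PP X).card : ℝ) with hPd
  have hprime : ∀ p ∈ PP X, p.Prime ∧ X ^ 2 < p ^ 5 := by
    intro p hp
    unfold PP at hp
    simp only [mem_filter, mem_range] at hp
    exact ⟨hp.2.1, hp.2.2.1⟩
  have hpW : ∀ p ∈ PP X, W < p := by
    intro p hp
    have h1 := (hprime p hp).2
    by_contra hc
    have : p ^ 5 ≤ W ^ 5 := Nat.pow_le_pow_left (by omega) 5
    omega
  have hlamP : lam X ≤ P := by
    unfold lam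
    rw [hPd, card_eq_sum_ones]
    push_cast
    refine sum_le_sum fun p hp => ?_
    rw [div_le_one (by exact_mod_cast (hprime p hp).1.pos)]
    exact_mod_cast (hprime p hp).1.one_le
  have hlam0 : 0 ≤ lam X := sum_nonneg fun p _ => by positivity
  have hcW : ((Ioc u (u + W)).card : ℝ) = W := by rw [Nat.card_Ioc]; simp
  have hIsum : ∀ f : ℕ → ℝ, ∑ κ ∈ I, f κ.2 = W * ∑ p ∈ PP X, f p := by
    intro f
    rw [hI, sum_product]
    simp only
    rw [sum_const, nsmul_eq_mul, hcW]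
  -- first moment
  have h1 : (W : ℝ) * (X * lam X - P) ≤
      ∑ m ∈ Icc 1 X, ∑ κ ∈ I, (if κ.2 ∣ m + κ.1 then (1 : ℝ) else 0) := by
    rw [sum_comm]
    have e1 : (W : ℝ) * (X * lam X - P) = ∑ κ ∈ I, ((X : ℝ) / κ.2 - 1) := by
      rw [hIsum (fun p => (X : ℝ) / p - 1)]
      congr 1
      rw [sum_sub_distrib, sum_const, nsmul_eq_mul, mul_one]
      unfold lam
      rw [mul_sum]
      congr 1
      exact sum_congr rfl fun p _ => by ring
    rw [e1]
    refine sum_le_sum fun κ hκ => ?_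
    rw [hI, mem_product] at hκ
    rw [← natCast_card_filter]
    exact cnt_ge X κ.2 κ.1 (hprime _ hκ.2).1.pos
  -- second moment
  have h2 : ∑ m ∈ Icc 1 X, (∑ κ ∈ I, (if κ.2 ∣ m + κ.1 then (1 : ℝ) else 0)) ^ 2 ≤
      X * (W * lam X) ^ 2 + (W * P) ^ 2 + (X * (W * lam X) + W * P) := by
    have e1 : ∀ m : ℕ, (∑ κ ∈ I, (if κ.2 ∣ m + κ.1 then (1 : ℝ) else 0)) ^ 2 =
        ∑ κ ∈ I, ∑ κ' ∈ I, (if κ.2 ∣ m + κ.1 ∧ κ'.2 ∣ m + κ'.1 then (1 : ℝ) else 0) := by
      intro m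
      rw [sq, sum_mul_sum]
      refine sum_congr rfl fun κ _ => sum_congr rfl fun κ' _ => ?_
      by_cases a : κ.2 ∣ m + κ.1 <;> by_cases b : κ'.2 ∣ m + κ'.1 <;> simp [a, b]
    simp only [e1]
    rw [sum_comm]
    have e2 : ∀ κ ∈ I, ∑ m ∈ Icc 1 X, ∑ κ' ∈ I,
        (if κ.2 ∣ m + κ.1 ∧ κ'.2 ∣ m + κ'.1 then (1 : ℝ) else 0) ≤
        ∑ κ' ∈ I, ((X : ℝ) / (κ.2 * κ'.2) + 1) + ((X : ℝ) / κ.2 + 1) := by
      intro κ hκ
      rw [sum_comm]
      have e3 : ∀ κ' ∈ I, ∑ m ∈ Icc 1 X,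
          (if κ.2 ∣ m + κ.1 ∧ κ'.2 ∣ m + κ'.1 then (1 : ℝ) else 0) ≤
          ((X : ℝ) / (κ.2 * κ'.2) + 1) + (if κ' = κ then ((X : ℝ) / κ.2 + 1) else 0) := by
        intro κ' hκ'
        have m1 := hκ
        have m2 := hκ'
        rw [hI, mem_product, mem_Ioc] at m1 m2
        have p1 := (hprime _ m1.2).1
        have p2 := (hprime _ m2.2).1
        have w1 := hpW _ m1.2
        rw [← natCast_card_filter]
        by_cases hpp : κ.2 = κ'.2
        · by_cases hii : κ' = κ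
          · rw [if_pos hii]
            have h3 := cnt_le X κ.2 p1.pos ((Icc 1 X).filter
              (fun m => κ.2 ∣ m + κ.1 ∧ κ'.2 ∣ m + κ'.1)) (fun m hm => by
                rw [mem_filter, mem_Icc] at hm; exact hm.1) (by
              intro a ha b hb hab
              rw [mem_filter] at ha hb
              have := Nat.dvd_sub hb.2.1 ha.2.1
              rwa [show b + κ.1 - (a + κ.1) = b - a by omega] at this)
            have : (0 : ℝ) ≤ (X : ℝ) / (κ.2 * κ'.2) := by positivity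
            linarith
          · rw [if_neg hii]
            have h3 : (Icc 1 X).filter (fun m => κ.2 ∣ m + κ.1 ∧ κ'.2 ∣ m + κ'.1) = ∅ := by
              rw [filter_eq_empty_iff]
              rintro m _ ⟨ha, hb⟩
              rw [← hpp] at hb
              have hne : κ.1 ≠ κ'.1 := fun h => hii (Prod.ext h.symm hpp.symm)
              rcases Nat.lt_or_gt_of_ne hne with h | h
              · have h5 : κ.2 ∣ (m + κ'.1) - (m + κ.1) := Nat.dvd_sub hb ha
                have := Nat.le_of_dvd (by omega) h5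
                omega
              · have h5 : κ.2 ∣ (m + κ.1) - (m + κ'.1) := Nat.dvd_sub ha hb
                have := Nat.le_of_dvd (by omega) h5
                omega
            rw [h3]
            simp only [card_empty, Nat.cast_zero, add_zero]
            positivity
        · have h3 := cnt_le X (κ.2 * κ'.2) (Nat.mul_pos p1.pos p2.pos) ((Icc 1 X).filter
              (fun m => κ.2 ∣ m + κ.1 ∧ κ'.2 ∣ m + κ'.1)) (fun m hm => by
                rw [mem_filter, mem_Icc] at hm; exact hm.1) (by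
              intro a ha b hb hab
              rw [mem_filter] at ha hb
              have t1 := Nat.dvd_sub hb.2.1 ha.2.1
              have t2 := Nat.dvd_sub hb.2.2 ha.2.2
              rw [show b + κ.1 - (a + κ.1) = b - a by omega] at t1
              rw [show b + κ'.1 - (a + κ'.1) = b - a by omega] at t2
              exact Nat.Coprime.mul_dvd_of_dvd_of_dvd ((Nat.coprime_primes p1 p2).2 hpp) t1 t2)
          push_cast at h3
          have : (0 : ℝ) ≤ (if κ' = κ then ((X : ℝ) / κ.2 + 1) else 0) := by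
            split_ifs <;> positivity
          linarith
      refine (sum_le_sum e3).trans ?_
      rw [sum_add_distrib, sum_ite_eq', if_pos hκ]
    refine (sum_le_sum e2).trans (le_of_eq ?_)
    rw [sum_add_distrib]
    have e4 : ∑ κ ∈ I, ((X : ℝ) / κ.2 + 1) = X * (W * lam X) + W * P := by
      rw [hIsum (fun p => (X : ℝ) / p + 1), sum_add_distrib, sum_const, nsmul_eq_mul, mul_one]
      unfold lam
      rw [mul_add]
      congr 1
      rw [mul_sum, mul_sum, mul_sum]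
      exact sum_congr rfl fun p _ => by ring
    rw [e4]
    congr 1
    have e5 : ∀ κ ∈ I, ∑ κ' ∈ I, ((X : ℝ) / (κ.2 * κ'.2) + 1) =
        (X : ℝ) / κ.2 * (W * lam X) + W * P := by
      intro κ _
      rw [hIsum (fun p => (X : ℝ) / (κ.2 * p) + 1), sum_add_distrib, sum_const, nsmul_eq_mul,
        mul_one, mul_add]
      congr 1
      unfold lam
      rw [mul_sum, mul_sum, mul_sum]
      exact sum_congr rfl fun p _ => by ring
    rw [sum_congr rfl e5, hIsum (fun p => (X : ℝ) / p * (W * lam X) + W * P), sum_add_distrib,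
      sum_const, nsmul_eq_mul, ← sum_mul]
    have e6 : ∑ p ∈ PP X, (X : ℝ) / p = X * lam X := by
      unfold lam
      rw [mul_sum]
      exact sum_congr rfl fun p _ => by ring
    rw [e6]
    ring
  have h3 : ∑ m ∈ Icc 1 X, ((∑ κ ∈ I, (if κ.2 ∣ m + κ.1 then (1 : ℝ) else 0)) -
      W * lam X) ^ 2 = ∑ m ∈ Icc 1 X, (∑ κ ∈ I, (if κ.2 ∣ m + κ.1 then (1 : ℝ) else 0)) ^ 2 -
      2 * (W * lam X) * ∑ m ∈ Icc 1 X, ∑ κ ∈ I, (if κ.2 ∣ m + κ.1 then (1 : ℝ) else 0) +
      X * (W * lam X) ^ 2 := by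
    have : ∀ m ∈ Icc 1 X, ((∑ κ ∈ I, (if κ.2 ∣ m + κ.1 then (1 : ℝ) else 0)) -
      W * lam X) ^ 2 = (∑ κ ∈ I, (if κ.2 ∣ m + κ.1 then (1 : ℝ) else 0)) ^ 2 -
      2 * (W * lam X) * ∑ κ ∈ I, (if κ.2 ∣ m + κ.1 then (1 : ℝ) else 0) + (W * lam X) ^ 2 :=
      fun m _ => by ring
    rw [sum_congr rfl this, sum_add_distrib, sum_sub_distrib, ← mul_sum, sum_const, Nat.card_Icc,
      nsmul_eq_mul]
    simp
  rw [h3]
  have hW1 : (1 : ℝ) ≤ W := by exact_mod_cast hW
  have hP1 : (1 : ℝ) ≤ P := by rw [hPd]; exact_mod_cast hP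
  have h4 : 2 * (W * lam X) * ((W : ℝ) * (X * lam X - P)) ≤ 2 * (W * lam X) *
      ∑ m ∈ Icc 1 X, ∑ κ ∈ I, (if κ.2 ∣ m + κ.1 then (1 : ℝ) else 0) :=
    mul_le_mul_of_nonneg_left h1 (by positivity)
  have h5 : (W : ℝ) * lam X * (W * P) ≤ (W * P) * (W * P) :=
    mul_le_mul_of_nonneg_right (mul_le_mul_of_nonneg_left hlamP (by positivity)) (by positivity)
  have h6 : (W : ℝ) * P ≤ (W * P) * (W * P) := by
    have : 1 ≤ (W : ℝ) * P := by nlinarith
    nlinarith
  have h7 : (4 : ℝ) * W ^ 2 * P ^ 2 = 4 * ((W * P) * (W * P)) := by ring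
  rw [h7]
  nlinarith [h2, h4, h5, h6]

end Pool.Agent.Helper32K9.St
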