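import Mathlib
import Pool.Agent.Helper32K9.St.Nt
import Pool.Agent.R60.Steiner.Basic

/-!
# The divisibility conditions for Steiner systems of small strength and polynomial order
-/

set_option autoImplicit false

namespace Pool.Agent.Helper32K9.St

open Finset Filter Topology
open Pool.Agent.R60.Steiner (DivCond NoCarry divCond_iff_red red_iff_noCarry)

theorem lam_lower : ∃ X₀ : ℕ, ∀ X : ℕ, X₀ ≤ X →
    1 / 100 ≤ lam X ∧ ((PP X).card : ℝ) ≤ (X : ℝ) ^ (9 / 20 : ℝ) := by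
  obtain ⟨A0, hA0, h⟩ := Pool.Agent.Helper42.sum_recip_primes_ge
  have t1 : Tendsto (fun X : ℕ => Real.log X) atTop atTop :=
    Real.tendsto_log_atTop.comp tendsto_natCast_atTop_atTop
  have t2 : Tendsto (fun X : ℕ => (X : ℝ) ^ (2 / 5 : ℝ)) atTop atTop :=
    (tendsto_rpow_atTop (by norm_num)).comp tendsto_natCast_atTop_atTop
  obtain ⟨X₀, hX₀⟩ := eventually_atTop.1 ((t1.eventually_ge_atTop 600).and
    ((t2.eventually_ge_atTop (A0 + 1 : ℝ)).and (eventually_ge_atTop 2)))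
  refine ⟨X₀, fun X hX => ?_⟩
  obtain ⟨hL, hA, hX2⟩ := hX₀ X hX
  have hx : (2 : ℝ) ≤ X := by exact_mod_cast hX2
  have hx0 : (0 : ℝ) < X := by linarith
  set A := ⌊(X : ℝ) ^ (2 / 5 : ℝ)⌋₊ with hAd
  set B := ⌊(X : ℝ) ^ (9 / 20 : ℝ)⌋₊ with hBd
  have hApow : (0 : ℝ) < (X : ℝ) ^ (2 / 5 : ℝ) := Real.rpow_pos_of_pos hx0 _
  have hBpow : (0 : ℝ) < (X : ℝ) ^ (9 / 20 : ℝ) := Real.rpow_pos_of_pos hx0 _
  have hBle : (B : ℝ) ≤ (X : ℝ) ^ (9 / 20 : ℝ) := Nat.floor_le hBpow.le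
  have hAle : (A : ℝ) ≤ (X : ℝ) ^ (2 / 5 : ℝ) := Nat.floor_le hApow.le
  have hAlt : (X : ℝ) ^ (2 / 5 : ℝ) < A + 1 := Nat.lt_floor_add_one _
  have hBlt : (X : ℝ) ^ (9 / 20 : ℝ) < B + 1 := Nat.lt_floor_add_one _
  have hA1 : A0 ≤ A := Nat.le_floor (by linarith)
  have hAB : A ≤ B := Nat.floor_le_floor
    (Real.rpow_le_rpow_of_exponent_le (by linarith) (by norm_num))
  have hp5 : ((X : ℝ) ^ (2 / 5 : ℝ)) ^ (5 : ℕ) = (X : ℝ) ^ 2 := by
    rw [← Real.rpow_natCast, ← Real.rpow_mul hx0.le, ← Real.rpow_natCast]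
    norm_num
  have hp20 : ((X : ℝ) ^ (9 / 20 : ℝ)) ^ (20 : ℕ) = (X : ℝ) ^ 9 := by
    rw [← Real.rpow_natCast, ← Real.rpow_mul hx0.le, ← Real.rpow_natCast]
    norm_num
  have hX9 : (X : ℝ) ^ (9 / 20 : ℝ) ≤ X := by
    calc (X : ℝ) ^ (9 / 20 : ℝ) ≤ (X : ℝ) ^ (1 : ℝ) :=
          Real.rpow_le_rpow_of_exponent_le (by linarith) (by norm_num)
      _ = X := Real.rpow_one _
  have hmem : ∀ p : ℕ, p.Prime → A < p → p ≤ B → p ∈ PP X := by
    intro p hp h1 h2
    have h3 : (X : ℝ) ^ (2 / 5 : ℝ) < p := lt_of_lt_of_le hAlt (by exact_mod_cast h1)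
    have h4 : (p : ℝ) ≤ (X : ℝ) ^ (9 / 20 : ℝ) := le_trans (by exact_mod_cast h2) hBle
    unfold PP
    rw [mem_filter, mem_range]
    refine ⟨?_, hp, ?_, ?_⟩
    · have : (p : ℝ) ≤ X := h4.trans hX9
      have : p ≤ X := by exact_mod_cast this
      omega
    · have := pow_lt_pow_left₀ h3 hApow.le (n := 5) (by norm_num)
      rw [hp5] at this
      exact_mod_cast this
    · have := pow_le_pow_left₀ (by positivity) h4 20
      rw [hp20] at this
      exact_mod_cast this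
  constructor
  · have h1 := h A B hA1 hAB
    have h2 : ∑ q ∈ (Ioc A B).filter Nat.Prime, (1 / (q : ℝ)) ≤ lam X := by
      unfold lam
      refine sum_le_sum_of_subset_of_nonneg ?_ (fun p _ _ => by positivity)
      intro p hp
      rw [mem_filter, mem_Ioc] at hp
      exact hmem p hp.2 hp.1.1 hp.1.2
    refine le_trans ?_ (h1.trans h2)
    have hA0' : (0 : ℝ) < A := by exact_mod_cast (by omega : 0 < A)
    have hB0' : (1 : ℝ) < B := by exact_mod_cast (by omega : 1 < B)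
    have hlB : 0 < Real.log B := Real.log_pos hB0'
    have l1 : Real.log A ≤ 2 / 5 * Real.log X := by
      rw [← Real.log_rpow hx0]
      exact Real.log_le_log hA0' hAle
    have l2 : 9 / 20 * Real.log X - Real.log 2 ≤ Real.log B := by
      rw [← Real.log_rpow hx0, ← Real.log_div hBpow.ne' (by norm_num)]
      apply Real.log_le_log (by positivity)
      rw [div_le_iff₀ (by norm_num)]
      linarith
    have l3 := Real.log_two_lt_d9
    have key : 1 / 10 ≤ (Real.log B - Real.log A - 2) / Real.log B := by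
      rw [le_div_iff₀ hlB]
      linarith
    linarith
  · have h1 : (PP X).card ≤ B := by
      have : PP X ⊆ Ioc 0 B := by
        intro p hp
        unfold PP at hp
        rw [mem_filter, mem_range] at hp
        obtain ⟨_, hp1, _, hp2⟩ := hp
        rw [mem_Ioc]
        refine ⟨hp1.pos, ?_⟩
        apply Nat.le_floor
        by_contra hc
        push Not at hc
        have := pow_lt_pow_left₀ hc hBpow.le (n := 20) (by norm_num)
        rw [hp20] at this
        have h4 : (p : ℝ) ^ 20 ≤ (X : ℝ) ^ 9 := by exact_mod_cast hp2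
        linarith
      have := card_le_card this
      simpa using this
    exact le_trans (by exact_mod_cast h1) hBle

/-- most windows contain at least `K` integers with a prime factor larger than `X ^ (2 / 5)` -/
theorem nt (K : ℕ) (δ : ℝ) (hδ : 0 < δ) : ∃ W : ℕ, 1 ≤ W ∧ ∀ u : ℕ, ∃ X₀ : ℕ, ∀ X, X₀ ≤ X →
    ∃ S : Finset ℕ, (S.card : ℝ) ≤ δ * X ∧ ∀ m ∈ Icc 1 X, m ∉ S →
      ∃ T : Finset ℕ, (∀ i ∈ T, u < i ∧ i ≤ u + W ∧ J X m i) ∧ T.card = K := by
  classical
  obtain ⟨X₁, hX₁⟩ := lam_lower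
  set W := ⌈800 / δ⌉₊ + 400 * K + 1 with hW
  have hWδ : 800 / δ ≤ (W : ℝ) := by
    refine (Nat.le_ceil _).trans ?_
    rw [hW]; push_cast
    have : (0 : ℝ) ≤ K := Nat.cast_nonneg K
    linarith
  have hWK : (400 : ℝ) * K ≤ W := by
    rw [hW]; push_cast
    have : (0 : ℝ) ≤ (⌈800 / δ⌉₊ : ℝ) := Nat.cast_nonneg _
    linarith
  have hW1 : (1 : ℝ) ≤ W := by exact_mod_cast (by omega : 1 ≤ W)
  refine ⟨W, by omega, fun u => ?_⟩
  have t1 : Tendsto (fun X : ℕ => (X : ℝ) ^ (1 / 10 : ℝ)) atTop atTop :=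
    (tendsto_rpow_atTop (by norm_num)).comp tendsto_natCast_atTop_atTop
  obtain ⟨X₂, hX₂⟩ := eventually_atTop.1 (t1.eventually_ge_atTop (320000 / δ))
  refine ⟨X₁ + X₂ + W ^ 5 + u + W + 32, fun X hX => ?_⟩
  obtain ⟨hl, hPc⟩ := hX₁ X (by omega)
  have hX3 := hX₂ X (by omega)
  have hX32 : 32 ≤ X := by omega
  have hx0 : (0 : ℝ) < X := by exact_mod_cast (by omega : 0 < X)
  set P := ((PP X).card : ℝ) with hPd
  have hP1 : 1 ≤ (PP X).card := by
    by_contra hc
    have : PP X = ∅ := card_eq_zero.1 (by omega)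
    unfold lam at hl
    rw [this] at hl
    norm_num at hl
  set l := lam X with hld
  have hl0 : 0 < l := by linarith
  set Nf : ℕ → ℝ := fun m => ∑ κ ∈ Ioc u (u + W) ×ˢ PP X, (if κ.2 ∣ m + κ.1 then (1 : ℝ) else 0)
    with hNf
  have hsec : ∑ m ∈ Icc 1 X, (Nf m - W * l) ^ 2 ≤ X * (W * l) + 4 * W ^ 2 * P ^ 2 :=
    second X u W (by omega) (by
      have : X ≤ X ^ 2 := Nat.le_self_pow (by norm_num) X
      omega) hP1
  set S := (Icc 1 X).filter (fun m => ((Ioc u (u + W)).filter (fun i => J X m i)).card < K) with hS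
  refine ⟨S, ?_, ?_⟩
  · have h1 : ∀ m ∈ S, ((W : ℝ) * l / 2) ^ 2 ≤ (Nf m - W * l) ^ 2 := by
      intro m hm
      rw [hS, mem_filter, mem_Icc] at hm
      have h2 : Nf m ≤ 2 * (((Ioc u (u + W)).filter (fun i => J X m i)).card : ℝ) := by
        rw [hNf]
        simp only
        rw [sum_product, natCast_card_filter, mul_sum]
        refine sum_le_sum fun i hi => ?_
        rw [mem_Ioc] at hi
        simp only
        rw [← natCast_card_filter]
        by_cases hJ : J X m i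
        · rw [if_pos hJ]
          have := le_two X (m + i) hX32 (by omega) (by omega)
          have : (((PP X).filter (fun p => p ∣ m + i)).card : ℝ) ≤ 2 := by exact_mod_cast this
          linarith
        · rw [if_neg hJ]
          have : (PP X).filter (fun p => p ∣ m + i) = ∅ := by
            rw [filter_eq_empty_iff]
            intro p hp hd
            apply hJ
            unfold PP at hp
            rw [mem_filter] at hp
            exact ⟨p, hp.2.1, hp.2.2.1, hd⟩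
          rw [this]
          simp
      have h3 : (((Ioc u (u + W)).filter (fun i => J X m i)).card : ℝ) ≤ K := by
        exact_mod_cast hm.2.le
      have h4 : (4 : ℝ) * K ≤ W * l := by
        have : (W : ℝ) * (1 / 100) ≤ W * l := mul_le_mul_of_nonneg_left hl (by positivity)
        linarith
      have h5 : (W : ℝ) * l / 2 ≤ W * l - Nf m := by linarith
      have h6 : 0 ≤ (W : ℝ) * l / 2 := by positivity
      nlinarith
    have h2 : (S.card : ℝ) * ((W : ℝ) * l / 2) ^ 2 ≤ X * (W * l) + 4 * W ^ 2 * P ^ 2 := by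
      refine le_trans ?_ hsec
      calc (S.card : ℝ) * ((W : ℝ) * l / 2) ^ 2 = ∑ m ∈ S, ((W : ℝ) * l / 2) ^ 2 := by
            rw [sum_const, nsmul_eq_mul]
        _ ≤ ∑ m ∈ S, (Nf m - W * l) ^ 2 := sum_le_sum h1
        _ ≤ ∑ m ∈ Icc 1 X, (Nf m - W * l) ^ 2 :=
            sum_le_sum_of_subset_of_nonneg (filter_subset _ _) (fun m _ _ => sq_nonneg _)
    have hWl : 0 < (W : ℝ) * l := by positivity
    have h3 : (S.card : ℝ) ≤ 4 * X / (W * l) + 16 * P ^ 2 / l ^ 2 := by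
      have e : 4 * (X : ℝ) / (W * l) + 16 * P ^ 2 / l ^ 2 =
          (X * (W * l) + 4 * W ^ 2 * P ^ 2) / ((W : ℝ) * l / 2) ^ 2 := by
        field_simp
        ring
      rw [e, le_div_iff₀ (by positivity)]
      exact h2
    have h4 : 4 * (X : ℝ) / (W * l) ≤ δ / 2 * X := by
      rw [div_le_iff₀ hWl]
      have h5 : 800 ≤ W * δ := by rwa [div_le_iff₀ hδ] at hWδ
      have h6 : (W : ℝ) * (1 / 100) ≤ W * l := mul_le_mul_of_nonneg_left hl (by positivity)
      have h7 : δ / 2 * ((W : ℝ) * (1 / 100)) ≤ δ / 2 * (W * l) :=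
        mul_le_mul_of_nonneg_left h6 (by positivity)
      have h8 : 4 ≤ δ / 2 * (W * l) := by nlinarith
      calc 4 * (X : ℝ) ≤ (δ / 2 * (W * l)) * X := mul_le_mul_of_nonneg_right h8 hx0.le
        _ = δ / 2 * X * (W * l) := by ring
    have h5 : 16 * P ^ 2 / l ^ 2 ≤ δ / 2 * X := by
      have h6 : P ^ 2 ≤ (X : ℝ) ^ (9 / 10 : ℝ) := by
        have h7 : P ^ 2 ≤ ((X : ℝ) ^ (9 / 20 : ℝ)) ^ (2 : ℕ) :=
          pow_le_pow_left₀ (Nat.cast_nonneg _) hPc 2
        refine h7.trans (le_of_eq ?_)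
        rw [← Real.rpow_natCast, ← Real.rpow_mul hx0.le]
        norm_num
      have h7 : (X : ℝ) ^ (9 / 10 : ℝ) * (X : ℝ) ^ (1 / 10 : ℝ) = X := by
        rw [← Real.rpow_add hx0]
        norm_num
      have h8 : 0 < (X : ℝ) ^ (9 / 10 : ℝ) := Real.rpow_pos_of_pos hx0 _
      have h9 : 320000 * (X : ℝ) ^ (9 / 10 : ℝ) ≤ δ * X := by
        rw [div_le_iff₀ hδ] at hX3
        calc 320000 * (X : ℝ) ^ (9 / 10 : ℝ) ≤
              ((X : ℝ) ^ (1 / 10 : ℝ) * δ) * (X : ℝ) ^ (9 / 10 : ℝ) :=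
              mul_le_mul_of_nonneg_right hX3 h8.le
          _ = δ * ((X : ℝ) ^ (9 / 10 : ℝ) * (X : ℝ) ^ (1 / 10 : ℝ)) := by ring
          _ = δ * X := by rw [h7]
      have h10 : (1 / 10000 : ℝ) ≤ l ^ 2 := by nlinarith
      rw [div_le_iff₀ (by positivity)]
      have h11 : δ / 2 * X * (1 / 10000) ≤ δ / 2 * X * l ^ 2 :=
        mul_le_mul_of_nonneg_left h10 (by positivity)
      linarith
    linarith
  · intro m hm hmS
    have h1 : K ≤ ((Ioc u (u + W)).filter (fun i => J X m i)).card := by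
      by_contra hc
      exact hmS (by rw [hS, mem_filter]; exact ⟨hm, by omega⟩)
    obtain ⟨T, hT, hTc⟩ := exists_subset_card_eq h1
    refine ⟨T, fun i hi => ?_, hTc⟩
    have := hT hi
    rw [mem_filter, mem_Ioc] at this
    exact ⟨this.1.1, this.1.2, this.2⟩

/-! ### the divisibility conditions -/

theorem dc_nc {m n r : ℕ} (h : DivCond n (m + r) r) (hn : m + r < n) :
    NoCarry m (n - (m + r)) r := by
  have h1 := (divCond_iff_red (by omega) hn.le).1 h
  rw [show m + r - r = m by omega] at h1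
  exact red_iff_noCarry.1 h1

theorem dc_prime {m n r : ℕ} (h : DivCond n (m + r) r) (hn : m + r < n) {i p : ℕ} (hi : 1 ≤ i)
    (hir : i ≤ r) (hp : p.Prime) (hip : i < p) (hd : p ∣ m + i) :
    ∃ e, 1 ≤ e ∧ e ≤ i ∧ p ∣ (n - r) + e := by
  have h1 := dc_nc h hn p 1 hp one_pos
  rw [pow_one] at h1
  set b := n - (m + r) with hb
  have e1 : n - r = m + b := by omega
  have hmod : m % p = p - i := by
    have h2 : (m + i) % p = 0 := Nat.mod_eq_zero_of_dvd hd
    have h3 := Nat.mod_lt m hp.pos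
    have h4 : (m % p + i) % p = 0 := by
      rw [Nat.add_mod, Nat.mod_mod, ← Nat.add_mod]; exact h2
    have h5 : p ∣ m % p + i := Nat.dvd_of_mod_eq_zero h4
    obtain ⟨k, hk⟩ := h5
    have h6 : k = 1 := by
      rcases k with _ | _ | k
      · omega
      · rfl
      · nlinarith
    rw [h6] at hk
    omega
  have hdm := Nat.div_add_mod m p
  have h2 : p * (m / p + 1) ≤ m + r := by
    rw [mul_add, mul_one]
    omega
  have h3 := h1 h2
  rw [hmod] at h3
  refine ⟨i - b % p, by omega, by omega, ?_⟩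
  rw [e1]
  have h4 : m + b + (i - b % p) = (m + i) + p * (b / p) := by
    have := Nat.div_add_mod b p
    omega
  rw [h4]
  exact dvd_add hd (dvd_mul_right _ _)

theorem dc_one {m n r : ℕ} (h : DivCond n (m + r) r) (hn : m + r < n) (hr : 1 ≤ r) :
    m + 1 ∣ (n - r) + 1 := by
  set b := n - (m + r) with hb
  have e1 : (n - r) + 1 = (m + 1) + b := by omega
  rw [e1]
  refine dvd_add dvd_rfl ?_
  rw [Nat.dvd_iff_prime_pow_dvd_dvd]
  intro p k hp hk
  rcases Nat.eq_zero_or_pos k with rfl | hk0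
  · simp
  have h1 := dc_nc h hn p k hp hk0
  rw [← hb] at h1
  have hP : 0 < p ^ k := pow_pos hp.pos k
  have hP2 : 2 ≤ p ^ k := le_trans hp.two_le (Nat.le_self_pow (by omega) p)
  set P := p ^ k with hPd
  have hmod : m % P = P - 1 := by
    have h2 : (m + 1) % P = 0 := Nat.mod_eq_zero_of_dvd hk
    have h3 := Nat.mod_lt m hP
    have h4 : (m % P + 1) % P = 0 := by
      rw [Nat.add_mod, Nat.mod_mod, ← Nat.add_mod]; exact h2
    by_contra hne
    rw [Nat.mod_eq_of_lt (by omega)] at h4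
    omega
  have hdm := Nat.div_add_mod m P
  have h2 : P * (m / P + 1) ≤ m + r := by
    rw [mul_add, mul_one]
    omega
  have h3 := h1 h2
  rw [hmod] at h3
  have h4 : b % P = 0 := by omega
  exact Nat.dvd_of_mod_eq_zero h4

/-- the exceptional differences `q - r` -/
def Exc (c r₀ : ℕ) : Set ℕ :=
  {m | ∃ n r : ℕ, r₀ ≤ r ∧ m + r < n ∧ n ≤ r + m ^ c ∧ DivCond n (m + r) r}

open Classical in
theorem main (c : ℕ) (ε : ℝ) (hε : 0 < ε) : ∃ r₀ X₀ : ℕ, ∀ X, X₀ ≤ X →
    (((Icc 1 X).filter (fun m => m ∈ Exc c r₀)).card : ℝ) ≤ ε * X := by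
  obtain ⟨W, hW, hnt⟩ := nt (15 * c + 17) (ε / 4) (by linarith)
  obtain ⟨s₀, N, M, hdet⟩ := det c W
  obtain ⟨Y₁, h1⟩ := hnt 0
  obtain ⟨Y₂, h2⟩ := hnt N
  obtain ⟨Y₃, h3⟩ := hnt (N + W + s₀)
  obtain ⟨Y₄, hY₄⟩ := exists_nat_ge (4 * M / ε)
  refine ⟨N + 2 * W + s₀, Y₁ + Y₂ + Y₃ + Y₄ + M, fun X hX => ?_⟩
  obtain ⟨S₁, hc1, hS1⟩ := h1 X (by omega)
  obtain ⟨S₂, hc2, hS2⟩ := h2 X (by omega)
  obtain ⟨S₃, hc3, hS3⟩ := h3 X (by omega)
  have hsub : (Icc 1 X).filter (fun m => m ∈ Exc c (N + 2 * W + s₀)) ⊆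
      S₁ ∪ S₂ ∪ S₃ ∪ range M := by
    intro m hm
    rw [mem_filter] at hm
    by_contra hc
    simp only [mem_union, mem_range, not_or] at hc
    obtain ⟨⟨⟨n1, n2⟩, n3⟩, n4⟩ := hc
    obtain ⟨n, r, hr, hmn, hnc, hdc⟩ := hm.2
    have hmI := hm.1
    rw [mem_Icc] at hmI
    obtain ⟨T1, hT1, hT1c⟩ := hS1 m hm.1 n1
    obtain ⟨T2, hT2, hT2c⟩ := hS2 m hm.1 n2
    obtain ⟨T3, hT3, hT3c⟩ := hS3 m hm.1 n3
    obtain ⟨i2, hi2⟩ := card_pos.1 (by omega : 0 < T2.card)
    obtain ⟨i3, hi3⟩ := card_pos.1 (by omega : 0 < T3.card)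
    have g2 := hT2 i2 hi2
    have g3 := hT3 i3 hi3
    refine hdet X m (n - r) (by omega) (by omega) hmI.2 (by omega) ?_
      (dc_one hdc hmn (by omega)) ?_ ⟨T1, ?_, hT1c⟩ ⟨i2, g2⟩ ⟨i3, g3.1, by omega, g3.2.2⟩
    · have : n - r ≤ m ^ c := by omega
      exact this.trans (Nat.pow_le_pow_left hmI.2 c)
    · intro i hi1 hi2' p hp hpi hpd
      exact dc_prime hdc hmn hi1 (by omega) hp (by omega) hpd
    · intro i hi
      have := hT1 i hi
      exact ⟨by omega, by omega, this.2.2⟩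
  have hcard := card_le_card hsub
  have hcard2 : (S₁ ∪ S₂ ∪ S₃ ∪ range M).card ≤ S₁.card + S₂.card + S₃.card + M := by
    refine (card_union_le _ _).trans ?_
    rw [card_range]
    have := card_union_le (S₁ ∪ S₂) S₃
    have := card_union_le S₁ S₂
    omega
  have hcard3 : (((Icc 1 X).filter (fun m => m ∈ Exc c (N + 2 * W + s₀))).card : ℝ) ≤
      S₁.card + S₂.card + S₃.card + M := by exact_mod_cast hcard.trans hcard2
  have hM : (M : ℝ) ≤ ε / 4 * X := by
    have h5 : 4 * (M : ℝ) / ε ≤ X := hY₄.trans (by exact_mod_cast (by omega : Y₄ ≤ X))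
    rw [div_le_iff₀ hε] at h5
    linarith
  linarith

end Pool.Agent.Helper32K9.St
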